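import Pool.Agent.Helper61.GL.Cal
import Pool.Agent.Helper61.GL.KRG
import Pool.Agent.Helper8.RK.E4

/-!
# Counts with a random selection of carriers (FW, row [K], (K1))
-/

set_option autoImplicit false

namespace Pool.Agent.Helper6.FW

open Finset Pool.Agent.Helper69.RK Pool.Agent.Helper61.GL

variable {Ω α β γ κ ι : Type} [Fintype Ω]

/-- splitting along a function of the condition -/
theorem ch_fiber [Fintype ι] [DecidableEq ι] (μ : Ω → ℝ) (F : Ω → α) (G : Ω → γ) (S : Ω → ι)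
    (hS : ∀ ω ω', μ ω ≠ 0 → μ ω' ≠ 0 → G ω = G ω' → S ω = S ω') :
    CH μ F G = ∑ i, CH (res μ (fun ω => S ω = i)) F G := by
  classical
  have h1 : ∀ i, CH (res μ (fun ω => S ω = i)) F G =
      ∑ ω, res μ (fun ω => S ω = i) ω *
        (Real.logb 2 (pr μ G ω) - Real.logb 2 (pr μ (fun ω' => (F ω', G ω')) ω)) := fun i =>
    e4_part μ F G (fun ω => S ω = i)
      (fun ω ω' h h' e e1 => by rw [← hS ω ω' h h' e]; exact e1)
  rw [Finset.sum_congr rfl fun i _ => h1 i, Finset.sum_comm]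
  unfold CH
  apply Finset.sum_congr rfl
  intro ω _
  rw [← Finset.sum_mul]
  congr 1
  have h2 : ∀ i ∈ (univ : Finset ι), res μ (fun ω => S ω = i) ω = if S ω = i then μ ω else 0 := by
    intro i _
    by_cases h : S ω = i
    · rw [if_pos h, e4_res_pos μ (fun ω => S ω = i) ω h]
    · rw [if_neg h, e4_res_neg μ (fun ω => S ω = i) ω h]
  rw [Finset.sum_congr rfl h2, Finset.sum_ite_eq, if_pos (Finset.mem_univ _)]

theorem mass_fiber [Fintype ι] [DecidableEq ι] (μ : Ω → ℝ) (S : Ω → ι) :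
    mass μ = ∑ i, mass (res μ (fun ω => S ω = i)) := by
  classical
  unfold mass
  rw [Finset.sum_comm]
  apply Finset.sum_congr rfl
  intro ω _
  have h2 : ∀ i ∈ (univ : Finset ι), res μ (fun ω => S ω = i) ω = if S ω = i then μ ω else 0 := by
    intro i _
    by_cases h : S ω = i
    · rw [if_pos h, e4_res_pos μ (fun ω => S ω = i) ω h]
    · rw [if_neg h, e4_res_neg μ (fun ω => S ω = i) ω h]
  rw [Finset.sum_congr rfl h2, Finset.sum_ite_eq, if_pos (Finset.mem_univ _)]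

/-- the labels off the selection -/
def offs {K u : ℕ} (σ : Fin u → Fin K) (Q : Fin K → Ω → κ) (ω : Ω) : Fin K → Option κ := by
  classical
  exact fun b => if b ∈ Set.range σ then none else some (Q b ω)

omit [Fintype Ω] in
theorem offs_eq {K u : ℕ} {σ : Fin u → Fin K} {Q : Fin K → Ω → κ} {ω ω' : Ω}
    (h : offs σ Q ω = offs σ Q ω') {b : Fin K} (hb : b ∉ Set.range σ) : Q b ω = Q b ω' := by
  have h1 := congrFun h b
  unfold offs at h1
  simp only [if_neg hb] at h1
  exact Option.some_injective _ h1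

/-- vectors of digits with alphabets of size `2 ^ n` -/
theorem ch_alph {u : ℕ} (μ : Ω → ℝ) (hμ : ∀ ω, 0 ≤ μ ω) (X : Ω → Fin u → ℤ) (G : Ω → γ) (n : ℕ)
    (h : ∀ ω ω', μ ω ≠ 0 → μ ω' ≠ 0 → ∀ k, |(X ω k : ℝ) - X ω' k| ≤ 2 ^ n - 1) :
    CH μ X G ≤ u * n * mass μ := by
  have h0 : (1 : ℝ) ≤ 2 ^ n := one_le_pow₀ (by norm_num)
  have h1 := st_E3.2 Ω γ u μ X G (2 ^ n - 1) hμ (by linarith) (fun ω ω' a b _ i => h ω ω' a b i)
  rw [sub_add_cancel, Real.logb_pow, Real.logb_self_eq_one (by norm_num), mul_one] at h1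
  exact h1

/-- **COUNT WITH SELECTION**: from the counts of all fixed selections to the count of a selection which is a
function of the condition -/
theorem selG {u : ℕ} [Fintype ι] (μ : Ω → ℝ) (hμ : ∀ ω, 0 ≤ μ ω) (hm : mass μ = 1) (G : Ω → γ)
    (X : ι → Ω → Fin u → ℤ) (H : ι → Ω → β) (n : ℕ) (d : ℝ) (hd0 : 0 ≤ d) (sel : γ → ι)
    (hX : ∀ b, ∀ ω ω', μ ω ≠ 0 → μ ω' ≠ 0 → ∀ k, |(X b ω k : ℝ) - X b ω' k| ≤ 2 ^ n - 1)
    (hd : ∀ b, (∃ ω, μ ω ≠ 0 ∧ sel (G ω) = b) → u * n - d ≤ CH μ (X b) (fun ω => (G ω, H b ω))) :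
    u * n - (Fintype.card ι : ℝ) * d ≤
      CH μ (fun ω => X (sel (G ω)) ω) (fun ω => (G ω, H (sel (G ω)) ω)) := by
  classical
  have h1 := ch_fiber μ (fun ω => X (sel (G ω)) ω) (fun ω => (G ω, H (sel (G ω)) ω))
    (fun ω => sel (G ω)) (fun ω ω' _ _ e => by
      rw [Prod.mk.injEq] at e
      rw [e.1])
  have hres : ∀ (b : ι) (ω : Ω), res μ (fun ω => sel (G ω) = b) ω ≠ 0 →
      sel (G ω) = b ∧ μ ω ≠ 0 := by
    intro b ω h
    unfold res at h
    split_ifs at h with h3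
    · exact ⟨h3, h⟩
    · exact absurd rfl h
  have key : ∀ b : ι, u * n * mass (res μ (fun ω => sel (G ω) = b)) - d ≤
      CH (res μ (fun ω => sel (G ω) = b)) (fun ω => X (sel (G ω)) ω)
        (fun ω => (G ω, H (sel (G ω)) ω)) := by
    intro b
    have hr : ∀ ω, 0 ≤ res μ (fun ω => sel (G ω) = b) ω := e4_res_nonneg μ _ hμ
    have hr' : ∀ ω, 0 ≤ res μ (fun ω => ¬ sel (G ω) = b) ω := e4_res_nonneg μ _ hμ
    have e1 : CH (res μ (fun ω => sel (G ω) = b)) (fun ω => X (sel (G ω)) ω)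
        (fun ω => (G ω, H (sel (G ω)) ω)) =
        CH (res μ (fun ω => sel (G ω) = b)) (X b) (fun ω => (G ω, H b ω)) := by
      rw [ch_congr_left _ (fun ω => X (sel (G ω)) ω) (X b) _ (fun ω ω' h h' _ => by
        rw [(hres b ω h).1, (hres b ω' h').1])]
      apply ch_congr_right
      intro ω ω' h h'
      rw [(hres b ω h).1, (hres b ω' h').1]
    rw [e1]
    by_cases hex : ∃ ω, μ ω ≠ 0 ∧ sel (G ω) = b
    · have h2 := hd b hex
      have h3 := e4_split μ (X b) (fun ω => (G ω, H b ω))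
        (fun ω => sel (G ω) = b) (fun ω ω' _ _ e => by
          rw [Prod.mk.injEq] at e
          beta_reduce
          rw [e.1])
      have h4 := ch_alph (res μ (fun ω => ¬ sel (G ω) = b)) hr' (X b)
        (fun ω => (G ω, H b ω)) n (fun ω ω' a b' k => by
          have a1 : μ ω ≠ 0 := fun h0 => a (by unfold res; rw [h0]; split_ifs <;> rfl)
          have b1 : μ ω' ≠ 0 := fun h0 => b' (by unfold res; rw [h0]; split_ifs <;> rfl)
          exact hX b ω ω' a1 b1 k)
      have h5 : mass μ = mass (res μ (fun ω => sel (G ω) = b)) +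
          mass (res μ (fun ω => ¬ sel (G ω) = b)) := by
        unfold mass
        rw [← Finset.sum_add_distrib]
        exact Finset.sum_congr rfl fun ω _ => e4_res_add μ (fun ω => sel (G ω) = b) ω
      rw [hm] at h5
      have h6 : (u : ℝ) * n * mass (res μ (fun ω => ¬ sel (G ω) = b)) =
          u * n - u * n * mass (res μ (fun ω => sel (G ω) = b)) := by
        rw [show mass (res μ (fun ω => ¬ sel (G ω) = b)) =
          1 - mass (res μ (fun ω => sel (G ω) = b)) by linarith]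
        ring
      linarith
    · have h2 : mass (res μ (fun ω => sel (G ω) = b)) = 0 := by
        unfold mass
        apply Finset.sum_eq_zero
        intro ω _
        unfold res
        split_ifs with h
        · by_contra h0
          exact hex ⟨ω, h0, h⟩
        · rfl
      have h3 := ch_nonneg (res μ (fun ω => sel (G ω) = b)) hr (X b) (fun ω => (G ω, H b ω))
      rw [h2]
      linarith
  have h2 := Finset.sum_le_sum fun b (_ : b ∈ (univ : Finset ι)) => key b
  rw [← h1, Finset.sum_sub_distrib, ← Finset.mul_sum, ← mass_fiber μ (fun ω => sel (G ω)), hm, mul_one,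
    Finset.sum_const, Finset.card_univ, nsmul_eq_mul] at h2
  exact h2

/-- the same for tuples of single carriers -/
theorem sel_count {K u : ℕ} (μ : Ω → ℝ) (hμ : ∀ ω, 0 ≤ μ ω) (hm : mass μ = 1) (G : Ω → γ)
    (Q : Fin K → Ω → κ) (T : Fin K → Ω → ℤ) (n : ℕ) (d : ℝ) (hd0 : 0 ≤ d) (sel : γ → Fin u → Fin K)
    (hT : ∀ b, ∀ ω ω', μ ω ≠ 0 → μ ω' ≠ 0 → |(T b ω : ℝ) - T b ω'| ≤ 2 ^ n - 1)
    (hd : ∀ σ : Fin u → Fin K, (∃ ω, μ ω ≠ 0 ∧ sel (G ω) = σ) →
      u * n - d ≤ CH μ (fun ω k => T (σ k) ω) (fun ω => (G ω, offs σ Q ω))) :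
    u * n - (K : ℝ) ^ u * d ≤ CH μ (fun ω k => T (sel (G ω) k) ω) (fun ω => (G ω, offs (sel (G ω)) Q ω)) := by
  have h := selG (ι := Fin u → Fin K) μ hμ hm G (fun σ ω k => T (σ k) ω) (fun σ ω => offs σ Q ω) n d hd0 sel
    (fun σ ω ω' a b k => hT (σ k) ω ω' a b) hd
  rw [Fintype.card_fun, Fintype.card_fin, Fintype.card_fin] at h
  push_cast at h
  exact h

end Pool.Agent.Helper6.FW
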