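import Pool.Agent.Helper6.FW.KiX
import Pool.Agent.Helper78.FW.Badh
import Pool.Agent.Helper61.FW.Cfin
import Pool.Agent.Helper70.FW.Afg

/-!
# ROW [K] of the recorded trees (FW)

`rowKI` : the sum over one progression of levels of the row of the source vector `i0` of the node of the row `a` at the
level `m`, given the label of the spectators; the node is good.
-/

set_option autoImplicit false

namespace Pool.Agent.Helper6.FW

open Finset Pool.Agent.Helper69.RK Pool.Agent.Helper46.WF Pool.Agent.Helper58.VW Pool.Agent.Helper58.TR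
open Pool.Agent.Helper9.ND Pool.Agent.Helper99.FW Pool.Agent.Helper92.FW Pool.Agent.Helper25.FA Pool.Agent.Helper61.FW
open Pool.Agent.Helper15.VW Pool.Agent.Helper15.VG Pool.Agent.Helper78.FW Pool.Agent.Helper58.FW
open Pool.Agent.Helper22.FW hiding cN
open Pool.Agent.Helper70.FW Pool.Agent.Helper9.FW
open Pool.Agent.Helper61.GL hiding fl
open Pool.Agent.Helper92.W (fl)
open Pool.Agent.Helper31.EC (push_nn)
open scoped Matrix

/-- the loss of the valid blocks -/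
noncomputable def pvK (R K : ℕ) : ℝ := (1 - (1 / (2048 * (2 : ℝ) ^ R)) ^ 2) ^ K

/-- the loss of the seen directions -/
noncomputable def psK (N R K : ℕ) (κ : ℝ) : ℝ :=
  (net N (1 / (8 * N))).card * (1 - κ / (2 ^ 25 * ((N : ℝ) + 1) * ((2 : ℝ) ^ R) ^ 2)) ^ K

variable {Ω φ α β : Type} [Fintype Ω] {N k K : ℕ} {D : ED Ω φ α β N} [Fintype α] [Fintype β] {ρ η εQ ηQ c : ℝ}
  {tp : α → ℝ} {tq : β → ℝ} {Ap : α → Fin N → ℝ} {Cq : β → Fin N → ℝ} {Λ : Type} [Fintype Λ]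
  {l : Λ → ℝ} {en : Fin (k + 2 * K) → Fin (k + 2 * K) → Λ → Ω} {E : ℝ}

theorem ariK {A I Nn Kd lg c1 c3 c4 pv ps er xv xs Dg bt Mm : ℝ} (hI : 0 ≤ I) (hN : 0 ≤ Nn) (h3 : 0 ≤ c3)
    (h4 : 0 ≤ c4) (hv : xv ≤ pv + er) (hs : xs ≤ ps + er) :
    A * I + (Nn * (Kd + 2 * lg + c1 + c3 * (I * xv + (Dg + bt + Mm * er))) + c4 * (I * xs)) ≤
      A * I + ((Nn * (2 * lg + c1) + Nn * c3 * (bt + I * pv) + c4 * (I * ps)) +
        (Nn * Kd + (Nn * c3 * (I + Mm) + c4 * I) * er)) + Nn * c3 * Dg := by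
  have h1 : Nn * c3 * I * xv ≤ Nn * c3 * I * (pv + er) := mul_le_mul_of_nonneg_left hv (by positivity)
  have h2 : c4 * I * xs ≤ c4 * I * (ps + er) := mul_le_mul_of_nonneg_left hs (by positivity)
  linarith

/-- **ROW [K] of one source row** in the recorded trees -/
theorem rowKI (h : EdgD D ρ η εQ ηQ c tp tq Ap Cq) (FP : α → φ) {FQ : β → φ} (hFQ : ∀ ω, FQ (D.Q ω) = D.F ω)
    (hr : AR D l en E) (hx : XA l en) (a0 b0 : Fin (k + 2 * K)) {a : Fin (k + 2 * K)} (ha : a ∈ spc k K)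
    (hK : 0 < K) {P ρw r R : ℕ} {φ0 κ : ℝ} (hc : Cst N R ρw r φ0 κ) (oL oR : ℕ → ℕ)
    {w : Λ} (hw : l w ≠ 0) {m : ℕ}
    (hnd : IsNd (cw (push D.P D.μ) ((sdL D FP tp Ap P ρw R r φ0 κ oL).nL m) (D.P (en a b0 w))) tp m R ρw
      (cl m (tp (D.P (en a b0 w)))))
    {S' C₀ : ℕ} {B : ℝ} {g R0 : ℕ} (hg : R0 ≤ g) (hRR : R ≤ R0) (hB : B ≤ φ0 * 2 ^ R0) (hB32 : 32 ≤ B)
    {L M I l0 Xm : ℕ} (hMP : M ≤ L * P) (hMn : M ≤ D.n) (hX : 416 * N ≤ φ0 * 2 ^ Xm) (hM : l0 + I * R + Xm ≤ M)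
    (hn1 : N * (24 * K + 2) ≤ φ0 * 2 ^ D.n) (hn2 : N * (Kas N * 2 ^ M) ≤ φ0 * 2 ^ D.n)
    (i0 : Fin N) {G : Finset ℕ} (hG : G ⊆ range M) (Z : ℕ → Multiset (Fin N → ℝ))
    (hZ : ∀ t < I, Okb (fam (flr φ0)) B R R
      (WSd (sdL D FP tp Ap P ρw R r φ0 κ oL) (spc k K) (fun a => D.P (en a b0 w)))
      (VG (WSd (sdL D.mir FQ tq Cq P ρw R r φ0 κ oR) (spc k K) (fun b => D.Q (en a0 b w))) G)
      m (l0 + t * R) (((sdL D FP tp Ap P ρw R r φ0 κ oL).bL m (D.P (en a b0 w))).fr i0) (Z t))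
    {d δ : ℝ} (hd0 : 0 ≤ d) (hδ : 0 ≤ δ)
    (hcount : ∀ b, 2 * (D.n : ℝ) - d ≤ CH (cb (chl D l en ((sdL D FP tp Ap P ρw R r φ0 κ oL).nL m) b0 (mvs k K) a
        (8 * K)) (bs (8 * K)) l (Fp D en a0 b0) w)
      (fun v => fun e => fl D.n (tq (Qp D en a (8 * K) b v e)))
      (fun v => (G0K D en a b0 v, off b (fun b v => Qp D en a (8 * K) b v) v))) :
    ∑ t ∈ range I, IZ (cw l (Fp D en a0 b0) w) (fun w => D.z (en a0 b0 w)) (fun _ => ()) g R0 (Z t)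
      (((1 : ℝ) / 2) ^ (l0 + t * R) • ((sdL D FP tp Ap P ρw R r φ0 κ oL).bL m (D.P (en a b0 w))).fr i0) ≤
    (N * cF2 N 1 (CK N C₀) + cP N + cN N ((N + N + 1) * CK N C₀)) * I +
      ((N * (2 * (L * Real.logb 2 (Fintype.card (Rc N r))) + cF1 1 (CK N C₀)) +
        N * (R + cF3 N 1 (CK N C₀)) * (∑ J ∈ range M, bt (sdL D.mir FQ tq Cq P ρw R r φ0 κ oR) S' C₀ 270000 φ0 D l en
          a0 b0 (car ⟨0, hK⟩ 0) (car ⟨0, hK⟩ 1) J w + I * pvK R K) +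
        (R + cT N ((N + N + 1) * CK N C₀)) * (I * psK N R K κ)) +
       (N * (K * d) + (N * (R + cF3 N 1 (CK N C₀)) * (I + M) + (R + cT N ((N + N + 1) * CK N C₀)) * I) *
        Ers D l en (EG N ρw R r φ0 κ (push D.P D.μ) tp Ap) FP tp P ρw oL (m / P) (m % P) δ b0 (mvs k K) a (8 * K)
          (Fp D en a0 b0) w)) +
      N * (R + cF3 N 1 (CK N C₀)) * (range M \ G).card := by
  classical
  have hNpos : 0 < N := hc.hN
  have hNr : (1 : ℝ) ≤ N := by exact_mod_cast hNpos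
  obtain ⟨hC1, hC2, hC3, hC4⟩ := CK_big (C₀ := C₀) hNpos
  have hP0 : ∀ x, push D.P D.μ x ≠ 0 → ‖Ap x‖ ≤ 1 := fun x hx' => pu_A h hx'
  have hmu : ∀ x, 0 ≤ push D.P D.μ x := fun x => pu_nn h x
  have hpne : push D.P D.μ (D.P (en a b0 w)) ≠ 0 := pmu_ne hr b0 a hw
  have hm : m / P * P + m % P = m := Nat.div_add_mod' m P
  have hnd' : IsNd (cw (push D.P D.μ) (nd (EG N ρw R r φ0 κ (push D.P D.μ) tp Ap) FP tp P oL (m / P) (m % P))
      (D.P (en a b0 w))) tp (m / P * P + m % P) R ρw (cl (m / P * P + m % P) (tp (D.P (en a b0 w)))) := by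
    rw [hm]
    exact hnd
  have hreg := hc.reg_tree (F := FP) (T := tp) (P := P) (μ := push D.P D.μ) (A := Ap) (o := oL) (m / P) (m % P)
    ((sdL D FP tp Ap P ρw R r φ0 κ oL).nL m (D.P (en a b0 w)))
  have : Nonempty (Rc N r) := ⟨rc r 0⟩
  have hFl : ∀ w w', l w ≠ 0 → l w' ≠ 0 → Fp D en a0 b0 w = Fp D en a0 b0 w' →
      D.P (en a b0 w) = D.P (en a b0 w') := fun w w' _ _ e => fp_P D en a0 b0 ha e
  have key := kiX (R' := Rc N r) (SR := sdL D.mir FQ tq Cq P ρw R r φ0 κ oR) (L := L) (R := R) (r := r) (ρw := ρw) h hFQ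
    hr a0 b0 ha hK hNpos hc.hg hc.hg1 hc.hD ((sdL D FP tp Ap P ρw R r φ0 κ oL).nL m)
    (wf (EG N ρw R r φ0 κ (push D.P D.μ) tp Ap) FP tp P ρw oL (m / P) (m % P))
    ((sdL D FP tp Ap P ρw R r φ0 κ oL).bL m (D.P (en a b0 w))) hreg.det hreg.flo (fun v => hreg.floor hc.hg v) hw (m := m)
    (fun y hy hn hgd => by
      have h1 := hc.spec_tree (F := FP) (P := P) (o := oL) hmu hP0 hpne hnd' y hy hn hgd
      rw [hm] at h1
      exact h1)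
    (fun J q => sdG_frOf hc FQ tq Cq P oR (push D.mir.P D.mir.μ) J q)
    (fun J q => sdG_slo hc FQ tq Cq P oR (push D.mir.P D.mir.μ) J q) (S' := S') (C₀ := C₀)
    hg hRR hB hB32 hMP hMn hX hM hn1 hn2 i0 hG Z
    (WSd (sdL D FP tp Ap P ρw R r φ0 κ oL) (spc k K) (fun a => D.P (en a b0 w)))
    (fun i => mem_WS.mpr ⟨a, ha, i, rfl⟩) hZ hd0 hcount
    (bad := (range M \ G).card + ∑ J ∈ range M, bt (sdL D.mir FQ tq Cq P ρw R r φ0 κ oR) S' C₀ 270000 φ0 D l en a0 b0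
        (car ⟨0, hK⟩ 0) (car ⟨0, hK⟩ 1) J w +
      M * Ers D l en (EG N ρw R r φ0 κ (push D.P D.μ) tp Ap) FP tp P ρw oL (m / P) (m % P) δ b0 (mvs k K) a (8 * K)
        (Fp D en a0 b0) w)
    (fun bl VV X hX => bad_all hr hx a0 b0 a ha _ FP tp P ρw oL (m / P) (m % P) hδ (mvs k K) (8 * K) bl M G w hw
      ⟨0, hK⟩ VV X l0 R I (by have := hc.hD; omega) hX)
  have hv := val_tree (γ := _) hc hr FP tp Ap hP0 P oL (m / P) (m % P) hδ b0 (mvs k K) a K (Fp D en a0 b0) hFl hw hnd'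
  have hs := seen_tree (γ := _) hc hr FP tp Ap hP0 P oL (m / P) (m % P) hδ b0 (mvs k K) a K (Fp D en a0 b0) hFl hw hnd'
  have c3 : 0 ≤ R + cF3 N 1 (CK N C₀) := by
    have := kcF3_nn N (C := CK N C₀) (by linarith)
    positivity
  have c4 : 0 ≤ R + cT N ((N + N + 1) * CK N C₀) := by
    have h1 : 0 ≤ cT N ((N + N + 1) * CK N C₀) := kcT_nn N (by positivity)
    positivity
  exact key.trans (ariK (Nat.cast_nonneg I) (Nat.cast_nonneg N) c3 c4 hv hs)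

end Pool.Agent.Helper6.FW
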