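import Pool.Agent.Helper6.FW.Sel
import Pool.Agent.Helper15.VG.Form

/-!
# One slot of the spanning family (FW, row [K])
-/

set_option autoImplicit false

namespace Pool.Agent.Helper6.FW

open Finset Matrix Pool.Agent.Helper69.RK Pool.Agent.Helper15.VW Pool.Agent.Helper26.VW Pool.Agent.Helper15.VG
open Pool.Agent.Helper61.GL hiding fl
open Pool.Agent.Helper92.W (fl)

variable {Ω γ κ ρ : Type} [Fintype Ω]

/-! ### the shift -/

/-- integer logarithm -/
noncomputable def xx (y : ℝ) : ℕ := Nat.log 2 ⌊max y 1⌋₊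

theorem xx_le (y : ℝ) : (2 : ℝ) ^ xx y ≤ max y 1 := by
  have h1 : (1 : ℝ) ≤ max y 1 := le_max_right _ _
  have h2 : ⌊max y 1⌋₊ ≠ 0 := by
    have : 1 ≤ ⌊max y 1⌋₊ := by
      rw [Nat.le_floor_iff (by linarith)]
      exact_mod_cast h1
    omega
  have h3 := Nat.pow_log_le_self 2 h2
  have h4 : (2 : ℝ) ^ xx y ≤ (⌊max y 1⌋₊ : ℝ) := by
    unfold xx
    exact_mod_cast h3
  exact h4.trans (Nat.floor_le (by linarith))

theorem lt_xx (y : ℝ) : y ≤ 2 * 2 ^ xx y := by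
  have h1 : (1 : ℝ) ≤ max y 1 := le_max_right _ _
  have h3 := Nat.lt_pow_succ_log_self (b := 2) (by norm_num) ⌊max y 1⌋₊
  have h4 := Nat.lt_floor_add_one (max y 1)
  have h5 : (⌊max y 1⌋₊ : ℝ) + 1 ≤ 2 ^ (xx y + 1) := by
    unfold xx
    exact_mod_cast h3
  have h6 : (2 : ℝ) ^ (xx y + 1) = 2 * 2 ^ xx y := by rw [pow_succ]; ring
  have h7 : y ≤ max y 1 := le_max_left _ _
  linarith

/-! ### coefficients -/

/-- coefficients of the two units of a block -/
noncomputable def ac (V : Prop) (th : ℝ) (η : Fin (1 + 1) → ℝ) : Fin (1 + 1) → ℝ := by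
  classical
  exact if V then ![th / η 0, -(th / η 1)] else fun _ => 1

/-- the shift of a block -/
noncomputable def xc (V : Prop) (th : ℝ) (η : Fin (1 + 1) → ℝ) : ℕ := by
  classical
  exact if V then xx (|η 0| / th) else 0

/-- the vector of a block -/
noncomputable def wc {r : ℕ} (V : Prop) (th : ℝ) (η : Fin (1 + 1) → ℝ) (s : Fin (1 + 1) → Fin r → ℝ) :
    Fin r → ℝ := by
  classical
  exact if V then ∑ k, ac V th η k • s k else 0

/-- the other blocks -/
noncomputable def off {K : ℕ} (b : Fin K) (Q : Fin K → Ω → Fin (1 + 1) → κ) (ω : Ω) :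
    Fin K → Option (Fin (1 + 1) → κ) := fun b' => if b' = b then none else some (Q b' ω)

omit [Fintype Ω] in
theorem off_eq {K : ℕ} {b : Fin K} {Q : Fin K → Ω → Fin (1 + 1) → κ} {ω ω' : Ω}
    (h : off b Q ω = off b Q ω') {b' : Fin K} (hb : b' ≠ b) : Q b' ω = Q b' ω' := by
  have h1 := congrFun h b'
  unfold off at h1
  simp only [if_neg hb] at h1
  exact Option.some_injective _ h1

theorem push_id' (μ : Ω → ℝ) : push (fun ω : Ω => ω) μ = μ := by
  classical
  funext ω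
  unfold push
  rw [Finset.sum_ite_eq' univ ω μ, if_pos (Finset.mem_univ _)]

/-- **ONE SLOT**: a block of two units with two carriers, selected by a function of the label -/
theorem slot {r K : ℕ} (μ : Ω → ℝ) (hμ : ∀ ω, 0 ≤ μ ω) (hm : mass μ = 1) (z : Ω → Fin r → ℝ) (G0 : Ω → γ)
    (Q : Fin K → Ω → Fin (1 + 1) → κ) (T : κ → ℝ) (Cc : κ → Fin r → ℝ) (rc : κ → ρ)
    (η : Fin K → γ → Fin (1 + 1) → ℝ) (s : Fin K → γ → Fin (1 + 1) → Fin r → ℝ) (ze : γ → Fin r → ℝ)
    (Val : Fin K → γ → Prop) (th : Fin K → γ → ℝ) (bl : γ → Fin K) (M : ℕ → γ → Mt r)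
    (g R0 D l0 L n : ℕ) (bb oo : ℕ → κ → Fin r → ℝ) (Bd : ℕ → κ → κ → Prop) (C d e h A : ℝ)
    (hA : 1 ≤ A) (hC2 : 2 ≤ C) (hCA : A * A ≤ C) (hg : R0 ≤ g) (hD : D ≤ R0) (hd0 : 0 ≤ d) (hh : 0 < h)
    (hT : ∀ ω, μ ω ≠ 0 → ∀ b k, 0 ≤ T (Q b ω k) ∧ T (Q b ω k) < 1)
    (hM : ∀ t < L, ∀ ω, μ ω ≠ 0 → (M t (G0 ω)).det ≠ 0)
    (hwalk : ∀ t < L, ∀ ω, μ ω ≠ 0 → ∀ i, |((M t (G0 ω))⁻¹ *ᵥ (z ω - ze (G0 ω) -
      ∑ b, ∑ k, (T (Q b ω k) • s b (G0 ω) k - η b (G0 ω) k • Cc (Q b ω k)))) i| ≤ C)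
    (hval : ∀ ω, μ ω ≠ 0 → Val (bl (G0 ω)) (G0 ω) →
      (∀ k, h ≤ A * |η (bl (G0 ω)) (G0 ω) k| ∧ |η (bl (G0 ω)) (G0 ω) k| ≤ A * h) ∧
      0 < th (bl (G0 ω)) (G0 ω) ∧ th (bl (G0 ω)) (G0 ω) ≤ h ∧
      l0 + L * D + xc (Val (bl (G0 ω)) (G0 ω)) (th (bl (G0 ω)) (G0 ω)) (η (bl (G0 ω)) (G0 ω)) ≤ n)
    (hln : l0 + L * D ≤ n)
    (hw : ∀ t < L, ∀ ω, μ ω ≠ 0 → Val (bl (G0 ω)) (G0 ω) → ∀ i,
      |((M t (G0 ω))⁻¹ *ᵥ wc (Val (bl (G0 ω)) (G0 ω)) (th (bl (G0 ω)) (G0 ω)) (η (bl (G0 ω)) (G0 ω))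
        (s (bl (G0 ω)) (G0 ω))) i| ≤ C * 2 ^ (l0 + t * D + D))
    (hs : ∀ t < L, ∀ ω, μ ω ≠ 0 → Val (bl (G0 ω)) (G0 ω) → ∀ i,
      |((M t (G0 ω))⁻¹ *ᵥ s (bl (G0 ω)) (G0 ω) 1) i| ≤ C * 2 ^ n)
    (hline : ∀ J ω ω', μ ω ≠ 0 → μ ω' ≠ 0 → G0 ω = G0 ω' → ∀ b k, rc (Q b ω k) = rc (Q b ω' k) →
      fl J (T (Q b ω k)) = fl J (T (Q b ω' k)) →
      bb J (Q b ω k) = bb J (Q b ω' k) ∧ oo J (Q b ω k) = oo J (Q b ω' k))
    (hgood : ∀ t < L, ∀ ω, μ ω ≠ 0 → Val (bl (G0 ω)) (G0 ω) → ∀ J,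
      J = l0 + t * D + xc (Val (bl (G0 ω)) (G0 ω)) (th (bl (G0 ω)) (G0 ω)) (η (bl (G0 ω)) (G0 ω)) →
      ¬ Bd J (Q (bl (G0 ω)) ω 0) (Q (bl (G0 ω)) ω 1) →
      (∀ i, |η (bl (G0 ω)) (G0 ω) 1| * |((M t (G0 ω))⁻¹ *ᵥ bb J (Q (bl (G0 ω)) ω 0)) i| ≤ C * 2 ^ n) ∧
      (∀ i, |η (bl (G0 ω)) (G0 ω) 1| * |((M t (G0 ω))⁻¹ *ᵥ (bb J (Q (bl (G0 ω)) ω 1) -
        bb J (Q (bl (G0 ω)) ω 0))) i| ≤ C * 2 ^ J) ∧
      ∀ k i, |η (bl (G0 ω)) (G0 ω) k| * |((M t (G0 ω))⁻¹ *ᵥ (Cc (Q (bl (G0 ω)) ω k) -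
        T (Q (bl (G0 ω)) ω k) • bb J (Q (bl (G0 ω)) ω k) - oo J (Q (bl (G0 ω)) ω k))) i| ≤ C)
    (hcount : ∀ b, 2 * (n : ℝ) - d ≤ CH μ (fun ω => fun k => fl n (T (Q b ω k)))
      (fun ω => (G0 ω, off b Q ω)))
    (hrec : CH μ (fun ω => fun k => rc (Q (bl (G0 ω)) ω k)) (fun ω => (G0 ω, off (bl (G0 ω)) Q ω)) ≤ e) :
    ∑ t ∈ range L, NsV μ z G0 (fun ω => M t (G0 ω)) g R0 (fun ω => ((1 : ℝ) / 2) ^ (l0 + t * D) •
        wc (Val (bl (G0 ω)) (G0 ω)) (th (bl (G0 ω)) (G0 ω)) (η (bl (G0 ω)) (G0 ω)) (s (bl (G0 ω)) (G0 ω))) ≤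
      (K * d + e + cF1 1 C) + L * cF2 r 1 C + (D + cF3 r 1 C) *
        ∑ t ∈ range L, mass (res μ (fun ω => ¬ (Val (bl (G0 ω)) (G0 ω) ∧
          ¬ Bd (l0 + t * D + xc (Val (bl (G0 ω)) (G0 ω)) (th (bl (G0 ω)) (G0 ω)) (η (bl (G0 ω)) (G0 ω)))
            (Q (bl (G0 ω)) ω 0) (Q (bl (G0 ω)) ω 1)))) := by
  classical
  have hC0 : 0 ≤ C := by linarith
  -- data
  set B : Ω → Fin K := fun ω => bl (G0 ω) with hB
  set V : Ω → Prop := fun ω => Val (B ω) (G0 ω) with hV
  set ta : Ω → ℝ := fun ω => th (B ω) (G0 ω) with hta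
  set et : Ω → Fin (1 + 1) → ℝ := fun ω => η (B ω) (G0 ω) with het
  set ss : Ω → Fin (1 + 1) → Fin r → ℝ := fun ω => s (B ω) (G0 ω) with hss
  set X : Ω → ℕ := fun ω => xc (V ω) (ta ω) (et ω) with hX
  set zz : Ω → Fin r → ℝ := fun ω => ze (G0 ω) + ∑ b, (if b = B ω then 0 else
    ∑ k, (T (Q b ω k) • s b (G0 ω) k - η b (G0 ω) k • Cc (Q b ω k))) with hzz
  set GG : Ω → γ × (Fin K → Option (Fin (1 + 1) → κ)) := fun ω => (G0 ω, off (B ω) Q ω) with hGG
  have hGG0 : ∀ ω ω', GG ω = GG ω' → G0 ω = G0 ω' := fun ω ω' e0 => (Prod.ext_iff.1 e0).1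
  have hBG : ∀ ω ω', G0 ω = G0 ω' → B ω = B ω' := fun ω ω' e0 => by simp only [hB]; rw [e0]
  have haV : ∀ ω, V ω → ac (V ω) (ta ω) (et ω) 0 = ta ω / et ω 0 ∧
      ac (V ω) (ta ω) (et ω) 1 = -(ta ω / et ω 1) := by
    intro ω hv
    unfold ac
    rw [if_pos hv]
    exact ⟨rfl, rfl⟩
  have haN : ∀ ω, ¬ V ω → ∀ k, ac (V ω) (ta ω) (et ω) k = 1 := by
    intro ω hv k
    unfold ac
    rw [if_neg hv]
  have count := selG (ι := Fin K) μ hμ hm G0 (fun b ω => fun k => fl n (T (Q b ω k))) (fun b ω => off b Q ω) n d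
    hd0 bl (fun b ω ω' x x' k => by
      have h1 := hT ω x b k
      have h2 := hT ω' x' b k
      have p1 : (0 : ℝ) < 2 ^ n := by positivity
      have a1 : (0 : ℤ) ≤ fl n (T (Q b ω k)) := by
        unfold Pool.Agent.Helper92.W.fl
        rw [Int.floor_nonneg]
        exact mul_nonneg p1.le h1.1
      have a2 : (0 : ℤ) ≤ fl n (T (Q b ω' k)) := by
        unfold Pool.Agent.Helper92.W.fl
        rw [Int.floor_nonneg]
        exact mul_nonneg p1.le h2.1
      have b1 : fl n (T (Q b ω k)) ≤ 2 ^ n - 1 := by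
        have : fl n (T (Q b ω k)) < 2 ^ n := by
          unfold Pool.Agent.Helper92.W.fl
          rw [Int.floor_lt]
          push_cast
          have := mul_lt_mul_of_pos_left h1.2 p1
          linarith
        omega
      have b2 : fl n (T (Q b ω' k)) ≤ 2 ^ n - 1 := by
        have : fl n (T (Q b ω' k)) < 2 ^ n := by
          unfold Pool.Agent.Helper92.W.fl
          rw [Int.floor_lt]
          push_cast
          have := mul_lt_mul_of_pos_left h2.2 p1
          linarith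
        omega
      have c1 : (0 : ℝ) ≤ fl n (T (Q b ω k)) := by exact_mod_cast a1
      have c2 : (0 : ℝ) ≤ fl n (T (Q b ω' k)) := by exact_mod_cast a2
      have c3 : (fl n (T (Q b ω k)) : ℝ) ≤ 2 ^ n - 1 := by exact_mod_cast b1
      have c4 : (fl n (T (Q b ω' k)) : ℝ) ≤ 2 ^ n - 1 := by exact_mod_cast b2
      rw [abs_le]
      constructor <;> linarith)
    (fun b _ => by
      have h1 := hcount b
      push_cast
      linarith)
  rw [Fintype.card_fin] at count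
  have key := lemF (r := r) (u := 1) μ μ (fun ω : Ω => ω) hμ hm (push_id' μ) z G0 GG
    (fun ω => fun k => rc (Q (B ω) ω k)) (fun t ω => M t (G0 ω)) g R0 D l0 L n
    (fun ω => wc (V ω) (ta ω) (et ω) (ss ω))
    (fun k ω => T (Q (B ω) ω k)) (fun k ω => Cc (Q (B ω) ω k)) (fun k ω => et ω k) (fun k ω => ss ω k)
    (fun k ω => ac (V ω) (ta ω) (et ω) k) X zz
    (fun t k ω => bb (l0 + t * D + X ω) (Q (B ω) ω k)) (fun t k ω => oo (l0 + t * D + X ω) (Q (B ω) ω k))
    (fun t ω => V ω ∧ ¬ Bd (l0 + t * D + X ω) (Q (B ω) ω 0) (Q (B ω) ω 1)) C (K * d) e (by linarith) hg hD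
    (fun t ω ω' _ _ e0 => by rw [e0])
    (fun ω ω' _ _ e0 => by
      simp only [hV, hta, het, hss, hB]
      rw [e0])
    (fun ω ω' _ _ e0 => hGG0 ω ω' e0)
    (fun ω ω' _ _ e0 => by
      have e1 := hGG0 ω ω' e0
      have e2 := hBG ω ω' e1
      have e3 : off (B ω) Q ω = off (B ω) Q ω' := by
        have := (Prod.ext_iff.1 e0).2
        simp only [hGG] at this
        rw [this, e2]
      have f1 : V ω = V ω' := by simp only [hV]; rw [e2, e1]
      have f2 : ta ω = ta ω' := by simp only [hta]; rw [e2, e1]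
      have f3 : et ω = et ω' := by simp only [het]; rw [e2, e1]
      have f4 : ss ω = ss ω' := by simp only [hss]; rw [e2, e1]
      refine ⟨fun k => ⟨by rw [f3], by rw [f4], by rw [f1, f2, f3]⟩, ?_, ?_⟩
      · simp only [hX]
        rw [f1, f2, f3]
      · simp only [hzz]
        rw [← e1, ← e2]
        congr 1
        apply Finset.sum_congr rfl
        intro b _
        by_cases hb : b = B ω
        · rw [if_pos hb, if_pos hb]
        · rw [if_neg hb, if_neg hb, off_eq e3 hb])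
    (fun t _ ω ω' x x' e0 e1 e2 k => by
      have e3 := hGG0 ω ω' e0
      have e4 := hBG ω ω' e3
      have f1 : X ω = X ω' := by simp only [hX, hV, hta, het]; rw [e4, e3]
      have e5 : rc (Q (B ω) ω k) = rc (Q (B ω') ω' k) := congrFun e1 k
      have e6 : fl (l0 + t * D + X ω) (T (Q (B ω) ω k)) = fl (l0 + t * D + X ω) (T (Q (B ω') ω' k)) := e2 k
      rw [← f1]
      rw [← e4] at e5 e6 ⊢
      exact hline _ ω ω' x x' e3 _ k e5 e6)
    (fun k ω x => ⟨(hT ω x (B ω) k).1, (hT ω x (B ω) k).2.le⟩)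
    (fun ω x => by
      by_cases hv : V ω
      · obtain ⟨v1, v2, v3, v4⟩ := hval ω x hv
        have a1 := (haV ω hv).1
        have u1 : h ≤ A * |et ω 0| := (v1 0).1
        have t0 : 0 < ta ω := v2
        have t1 : ta ω ≤ h := v3
        have p1 : 0 < |et ω 0| := by
          by_contra hcon
          push Not at hcon
          have : A * |et ω 0| ≤ 0 := mul_nonpos_of_nonneg_of_nonpos (by linarith) hcon
          linarith
        have x1 : X ω = xx (|et ω 0| / ta ω) := by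
          simp only [hX]
          unfold xc
          rw [if_pos hv]
        have a2 : |(ac (V ω) (ta ω) (et ω) 0)⁻¹| = |et ω 0| / ta ω := by
          rw [a1, inv_div, abs_div, abs_of_pos t0]
        have y1 : 1 ≤ A * (|et ω 0| / ta ω) := by
          rw [← mul_div_assoc, le_div_iff₀ t0]
          linarith
        rw [a2, x1]
        have g1 := xx_le (|et ω 0| / ta ω)
        have g2 := lt_xx (|et ω 0| / ta ω)
        have g4 : (0 : ℝ) < 2 ^ xx (|et ω 0| / ta ω) := by positivity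
        have g5 : 0 ≤ |et ω 0| / ta ω := by positivity
        have g3 : max (|et ω 0| / ta ω) 1 ≤ A * (|et ω 0| / ta ω) := max_le (by nlinarith) y1
        have g6 : A * (|et ω 0| / ta ω) ≤ C * (|et ω 0| / ta ω) := mul_le_mul_of_nonneg_right (by nlinarith) g5
        constructor
        · linarith
        · nlinarith
      · have x1 : X ω = 0 := by
          simp only [hX]
          unfold xc
          rw [if_neg hv]
        rw [haN ω hv 0, x1, pow_zero, inv_one, abs_one]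
        constructor <;> linarith)
    (fun ω x k => by
      have hk : k = 0 := Subsingleton.elim _ _
      subst hk
      have k1 : Fin.succ (0 : Fin 1) = 1 := rfl
      rw [k1]
      by_cases hv : V ω
      · obtain ⟨v1, v2, v3, v4⟩ := hval ω x hv
        obtain ⟨a1, a2⟩ := haV ω hv
        have u0 : h ≤ A * |et ω 0| := (v1 0).1
        have u0' : |et ω 0| ≤ A * h := (v1 0).2
        have u1 : h ≤ A * |et ω 1| := (v1 1).1
        have t0 : 0 < ta ω := v2
        have n0 : et ω 0 ≠ 0 := fun e0 => by rw [e0, abs_zero, mul_zero] at u0; linarith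
        have n1 : et ω 1 ≠ 0 := fun e0 => by rw [e0, abs_zero, mul_zero] at u1; linarith
        rw [a1, a2]
        have e1 : -(ta ω / et ω 1) / (ta ω / et ω 0) = -(et ω 0 / et ω 1) := by
          field_simp
        rw [e1, abs_neg, abs_div, div_le_iff₀ (abs_pos.mpr n1)]
        have e2 : A * h ≤ A * (A * |et ω 1|) := mul_le_mul_of_nonneg_left u1 (by linarith)
        have e3 : A * A * |et ω 1| ≤ C * |et ω 1| := mul_le_mul_of_nonneg_right hCA (abs_nonneg _)
        linarith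
      · rw [haN ω hv, haN ω hv, div_one, abs_one]
        linarith)
    (fun ω x => by
      by_cases hv : V ω
      · exact (hval ω x hv).2.2.2
      · have x1 : X ω = 0 := by
          simp only [hX]
          unfold xc
          rw [if_neg hv]
        rw [x1]
        exact hln)
    hM
    (fun t ht ω x i => by
      by_cases hv : V ω
      · exact hw t ht ω x hv i
      · have w0 : wc (V ω) (ta ω) (et ω) (ss ω) = 0 := by
          unfold wc
          rw [if_neg hv]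
        rw [w0, Matrix.mulVec_zero, Pi.zero_apply, abs_zero]
        positivity)
    (by
      refine le_trans ?_ count
      push_cast
      linarith)
    hrec
    (fun t ht ω x hE => by
      obtain ⟨hv, hb⟩ := hE
      obtain ⟨v1, v2, v3, v4⟩ := hval ω x hv
      obtain ⟨a1, a2⟩ := haV ω hv
      have u0 : h ≤ A * |et ω 0| := (v1 0).1
      have u1 : h ≤ A * |et ω 1| := (v1 1).1
      have n0 : et ω 0 ≠ 0 := fun e0 => by rw [e0, abs_zero, mul_zero] at u0; linarith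
      have n1 : et ω 1 ≠ 0 := fun e0 => by rw [e0, abs_zero, mul_zero] at u1; linarith
      obtain ⟨g1, g2, g3⟩ := hgood t ht ω x hv _ rfl hb
      refine ⟨?_, ?_, ?_, ?_, ?_, ?_, ?_⟩
      · unfold wc
        rw [if_pos hv]
      · rw [Fin.sum_univ_two, a1, a2]
        field_simp
        ring
      · intro i
        have h1 := hwalk t ht ω x i
        have h2 : ∑ b, ∑ k, (T (Q b ω k) • s b (G0 ω) k - η b (G0 ω) k • Cc (Q b ω k)) =
            (∑ b, (if b = B ω then 0 else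
              ∑ k, (T (Q b ω k) • s b (G0 ω) k - η b (G0 ω) k • Cc (Q b ω k)))) +
            ∑ k, (T (Q (B ω) ω k) • ss ω k - et ω k • Cc (Q (B ω) ω k)) := by
          have h3 : ∑ k, (T (Q (B ω) ω k) • ss ω k - et ω k • Cc (Q (B ω) ω k)) =
              ∑ b, (if b = B ω then
                ∑ k, (T (Q b ω k) • s b (G0 ω) k - η b (G0 ω) k • Cc (Q b ω k)) else 0) := by
            rw [Finset.sum_ite_eq' univ (B ω), if_pos (Finset.mem_univ _)]
          rw [h3, ← Finset.sum_add_distrib]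
          apply Finset.sum_congr rfl
          intro b _
          by_cases hb' : b = B ω
          · rw [if_pos hb', if_pos hb', zero_add]
          · rw [if_neg hb', if_neg hb', add_zero]
        have h4 : z ω - zz ω - ∑ k, (T (Q (B ω) ω k) • ss ω k - et ω k • Cc (Q (B ω) ω k)) =
            z ω - ze (G0 ω) - ∑ b, ∑ k, (T (Q b ω k) • s b (G0 ω) k - η b (G0 ω) k • Cc (Q b ω k)) := by
          rw [h2]
          simp only [hzz]
          abel
        rw [h4]
        exact h1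
      · intro k i
        have hk : k = 0 := Subsingleton.elim _ _
        subst hk
        exact hs t ht ω x hv i
      · intro k i
        have hk : k = 0 := Subsingleton.elim _ _
        subst hk
        exact g1 i
      · intro k i
        have hk : k = 0 := Subsingleton.elim _ _
        subst hk
        exact g2 i
      · intro k i
        exact g3 k i)
  exact key

end Pool.Agent.Helper6.FW
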