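import Pool.Agent.Helper6.FW.KiC

/-!
# ROW [K] for one source row, one level and one value of the label (FW)
-/

set_option autoImplicit false

namespace Pool.Agent.Helper6.FW

open Finset Pool.Agent.Helper69.RK Pool.Agent.Helper46.WF Pool.Agent.Helper58.VW Pool.Agent.Helper58.TR
open Pool.Agent.Helper9.ND Pool.Agent.Helper99.FW Pool.Agent.Helper92.FW Pool.Agent.Helper25.FA Pool.Agent.Helper61.FW
open Pool.Agent.Helper15.VW Pool.Agent.Helper15.VG Pool.Agent.Helper78.FW Pool.Agent.Helper58.FW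
open Pool.Agent.Helper22.FW Pool.Agent.Helper70.FW Pool.Agent.Helper9.FW
open Pool.Agent.Helper61.GL hiding fl
open Pool.Agent.Helper92.W (fl)
open Pool.Agent.Helper9.VB (tr tr_norm)
open Pool.Agent.Helper31.EC (push_nn)
open scoped Matrix

/-- the constant of the rows -/
noncomputable def CK (N C₀ : ℕ) : ℝ := 42120000 * (N : ℝ) ^ 3 * 2 ^ C₀

theorem CK_big {N C₀ : ℕ} (hN : 0 < N) : 42120000 ≤ CK N C₀ ∧ 32 * (N : ℝ) ^ 2 ≤ CK N C₀ ∧
    13 * ((N : ℝ) ^ 3 * (12 * 2 ^ C₀ * 270000)) ≤ CK N C₀ ∧ (N : ℝ) ≤ CK N C₀ := by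
  have h1 : (1 : ℝ) ≤ N := by exact_mod_cast hN
  have h2 : (1 : ℝ) ≤ 2 ^ C₀ := one_le_pow₀ (by norm_num)
  have h3 : (1 : ℝ) ≤ (N : ℝ) ^ 3 := one_le_pow₀ h1
  have h4 : (N : ℝ) ^ 3 ≤ (N : ℝ) ^ 3 * 2 ^ C₀ := le_mul_of_one_le_right (by positivity) h2
  have h5 : (N : ℝ) ^ 2 ≤ (N : ℝ) ^ 3 := pow_le_pow_right₀ h1 (by norm_num)
  have h6 : (N : ℝ) ≤ (N : ℝ) ^ 3 := le_self_pow₀ h1 (by norm_num)
  have e : CK N C₀ = 42120000 * ((N : ℝ) ^ 3 * 2 ^ C₀) := by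
    unfold CK
    ring
  rw [e]
  refine ⟨by nlinarith, by nlinarith, ?_, by nlinarith⟩
  apply le_of_eq
  ring

section

variable {Ω φ α β : Type} [Fintype Ω] {N k K : ℕ} {D : ED Ω φ α β N} {Λ : Type} [Fintype Λ]

/-- the label of the count: end centre, vertices of the chain, left vertices, right spectators, base label -/
noncomputable def G0K (D : ED Ω φ α β N) (en : Fin (k + 2 * K) → Fin (k + 2 * K) → Λ → Ω) (a b0 : Fin (k + 2 * K))
    (v : Lam Λ (Fin (k + 2 * K) → Ω) (8 * K)) :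
    ((Fin N → ℤ) × (Fin (8 * K) → α)) × ((({c // c ∈ (univ : Finset (Fin (k + 2 * K)))} → α) ×
      ({c // c ∈ spc k K} → β)) × φ) :=
  ((D.zd (cur (row en a) (8 * K) v b0), yv D en a b0 v),
    ((PR D en b0 univ (bs (8 * K) v), QC D en a (spc k K) (bs (8 * K) v)), D.F (en a b0 (bs (8 * K) v))))

end

theorem Pw_mass {Ω : Type} [Fintype Ω] (μ : Ω → ℝ) (S : Ω → Prop) : mass (res μ S) = Pw μ S := by
  classical
  unfold mass Pw
  refine Finset.sum_congr rfl fun ω _ => ?_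
  unfold res
  split_ifs <;> rfl

/-- entropy of the records of two carriers -/
theorem rec_two {Ω' Pt φ R γ : Type} [Fintype Ω'] [Fintype R] [Nonempty R] (μ : Ω' → ℝ) (hμ : ∀ ω, 0 ≤ μ ω)
    (hm : mass μ = 1) (E : ℕ → (Pt → Lb φ R) → Pt → R) (F : Pt → φ) (T : Pt → ℝ) (P : ℕ) (o : ℕ → ℕ) (L : ℕ)
    (Q : Ω' → Fin (1 + 1) → Pt) (g : Ω' → γ) :
    CH μ (fun ω => fun k => recs E F T P o L (Q ω k)) g ≤ 2 * (L * Real.logb 2 (Fintype.card R)) := by
  have h1 := ch_pi_le μ hμ (fun (k : Fin (1 + 1)) ω => recs E F T P o L (Q ω k)) g (fun _ g => g)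
  have h2 : ∀ k ∈ (univ : Finset (Fin (1 + 1))), CH μ (fun ω => recs E F T P o L (Q ω k)) (hg (fun _ g => g) g k) ≤
      L * Real.logb 2 (Fintype.card R) := by
    intro k _
    have h3 := Pool.Agent.Helper62.FW.ch_recs E F T P o μ hμ (fun ω => Q ω k) (hg (fun _ g => g) g k) L
    rw [hm, mul_one] at h3
    exact h3
  refine h1.trans ((Finset.sum_le_sum h2).trans (le_of_eq ?_))
  rw [Finset.sum_const, Finset.card_univ, Fintype.card_fin, nsmul_eq_mul]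
  push_cast
  ring

/-- the shift of a valid block is bounded -/
theorem xc_le {V : Prop} {th : ℝ} {η : Fin (1 + 1) → ℝ} {Xm : ℕ} (h : |η 0| / th ≤ 2 ^ Xm) : xc V th η ≤ Xm := by
  unfold xc
  split_ifs
  · have h1 := xx_le (|η 0| / th)
    have h2 : max (|η 0| / th) 1 ≤ 2 ^ Xm := max_le h (one_le_pow₀ (by norm_num))
    have h3 : (2 : ℝ) ^ xx (|η 0| / th) ≤ 2 ^ Xm := h1.trans h2
    exact (pow_le_pow_iff_right₀ (by norm_num : (1 : ℝ) < 2)).mp h3
  · exact Nat.zero_le _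

/-- sizes of the block of a good node -/
theorem blk_size {α : Type} {N : ℕ} {c hh : ℝ} (hc : c = 1 ∨ c = -1) (hh0 : 0 < hh) {Tm : α → ℝ} {Am : α → Fin N → ℝ}
    {y : Fin 8 → α} (hA : ∀ j, ‖Am (y j)‖ ≤ 1)
    (h1 : |hh / al4 (fun k => Tm (lft y k))| ≤ 4 ∧ 1 / 13 ≤ |hh / al4 (fun k => Tm (lft y k))| ∧
      al4 (fun k => Tm (lft y k)) ≠ 0)
    (h2 : |hh / al4 (fun k => Tm (rgt y k))| ≤ 4 ∧ 1 / 13 ≤ |hh / al4 (fun k => Tm (rgt y k))| ∧
      al4 (fun k => Tm (rgt y k)) ≠ 0) :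
    (∀ u, hh ≤ 13 * |etV c Tm y u| ∧ |etV c Tm y u| ≤ 13 * hh) ∧ ‖Dl hh Tm Am y‖ ≤ 32 ∧
      ∀ u, ‖sV c Am y u‖ ≤ 4 := by
  have hc1 : |c| = 1 := by
    rcases hc with rfl | rfl
    · exact abs_one
    · rw [abs_neg, abs_one]
  have key : ∀ x : ℝ, |hh / x| ≤ 4 ∧ 1 / 13 ≤ |hh / x| ∧ x ≠ 0 → hh ≤ 13 * |x| ∧ |x| ≤ 13 * hh := by
    rintro x ⟨a1, a2, a3⟩
    have a4 : 0 < |x| := abs_pos.mpr a3
    rw [abs_div, abs_of_pos hh0] at a1 a2
    rw [div_le_iff₀ a4] at a1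
    rw [div_le_div_iff₀ (by norm_num) a4] at a2
    constructor <;> linarith
  have hS : ∀ x : Fin 4 → α, (∀ j, ‖Am (x j)‖ ≤ 1) → |hh / al4 (fun k => Tm (x k))| ≤ 4 → ‖Sl hh Tm Am x‖ ≤ 16 := by
    intro x hx ha
    have b1 := al4_norm (fun i => Am (x i)) hx
    unfold Sl Yq
    rw [norm_smul, Real.norm_eq_abs]
    calc |hh / al4 (fun i => Tm (x i))| * ‖al4 (fun i => Am (x i))‖ ≤ 4 * (4 * 1) :=
          mul_le_mul ha b1 (norm_nonneg _) (by norm_num)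
      _ = 16 := by norm_num
  refine ⟨?_, ?_, ?_⟩
  · intro u
    have hu : hh ≤ 13 * |al4 (fun i => Tm (qd u y i))| ∧ |al4 (fun i => Tm (qd u y i))| ≤ 13 * hh := by
      by_cases hu0 : u = 0
      · subst hu0
        exact key _ h1
      · have hu1 : u = 1 := by
          have := u.2
          apply Fin.ext
          have h0 : u.1 ≠ 0 := fun h => hu0 (Fin.ext h)
          show u.1 = 1
          omega
        subst hu1
        exact key _ h2
    unfold etV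
    rw [abs_mul, hc1, one_mul]
    exact hu
  · unfold Dl
    refine (norm_sub_le _ _).trans ?_
    have c1 := hS (lft y) (fun j => hA _) h1.1
    have c2 := hS (rgt y) (fun j => hA _) h2.1
    linarith
  · intro u
    unfold sV
    rw [norm_smul, Real.norm_eq_abs, hc1, one_mul]
    have h3 := al4_norm (fun i => Am (qd u y i)) (b := 1) (fun j => by
      unfold qd
      split_ifs
      · exact hA _
      · exact hA _)
    linarith

end Pool.Agent.Helper6.FW
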