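import Pool.Agent.Helper92.FW.Xg
import Pool.Agent.Helper92.FW.Chn

/-!
# The bad mass of a selected block (FW, row [K])
-/

set_option autoImplicit false

namespace Pool.Agent.Helper6.FW

open Finset Pool.Agent.Helper69.RK Pool.Agent.Helper46.WF Pool.Agent.Helper92.FW Pool.Agent.Helper58.VW
open Pool.Agent.Helper61.GL hiding fl

variable {Ω γ κ V : Type} [Fintype Ω] [Fintype V]

/-- **NO SELECTION BIAS**: the block is chosen by the windows, the windows are nearly independent of the carriers -/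
theorem bad_sel {K M : ℕ} (μ : Ω → ℝ) (hμ : ∀ ω, 0 ≤ μ ω) (hm : ∑ ω, μ ω = 1) (g0 : Ω → γ) (w : V → ℝ)
    (hw : ∀ v, 0 ≤ w v) (hw1 : ∑ v, w v = 1) (κ' : Fin M → Type) (G : ∀ i, Ω → κ' i) (W : Ω → Fin M → V)
    (ε : Fin M → ℝ) (hε : ∀ i, 0 ≤ ε i)
    (hG : ∀ i ω ω', μ ω ≠ 0 → μ ω' ≠ 0 → G i ω = G i ω' → g0 ω = g0 ω' ∧ ∀ j, j < i → W ω j = W ω' j)
    (bl : (Fin M → V) → Fin K) (β : Fin K → γ → ℝ) (hβ : ∀ b d, 0 ≤ β b d ∧ β b d ≤ 1) (m : ℝ)
    (hex : ∀ b, ∑ ω, μ ω * β b (g0 ω) ≤ m) :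
    ∑ ω, μ ω * β (bl (W ω)) (g0 ω) ≤
      m + ∑ i, (ε i + Pw μ (fun ω => ¬ Cle (cw μ (G i) ω) (fun ω => W ω i) w (ε i))) := by
  classical
  have h1 := chain_tv μ hμ hm g0 (fun _ => w) (fun _ => hw) (fun _ => hw1) M κ' G W ε hε hG
    (fun d v => β (bl v) d) (fun d v => hβ _ _)
  refine h1.trans (add_le_add ?_ le_rfl)
  have h2 : ∀ ω, μ ω * ∑ v, wK w M v * β (bl v) (g0 ω) =
      ∑ b, (∑ v, if bl v = b then wK w M v else 0) * (μ ω * β b (g0 ω)) := by
    intro ω
    rw [Finset.mul_sum]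
    have e1 : ∀ b, (∑ v, if bl v = b then wK w M v else 0) * (μ ω * β b (g0 ω)) =
        ∑ v, (if bl v = b then μ ω * (wK w M v * β (bl v) (g0 ω)) else 0) := by
      intro b
      rw [Finset.sum_mul]
      apply Finset.sum_congr rfl
      intro v _
      by_cases hv : bl v = b
      · rw [if_pos hv, if_pos hv, hv]
        ring
      · rw [if_neg hv, if_neg hv, zero_mul]
    rw [Finset.sum_congr rfl fun b _ => e1 b, Finset.sum_comm]
    apply Finset.sum_congr rfl
    intro v _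
    rw [Finset.sum_ite_eq Finset.univ (bl v) fun _ => μ ω * (wK w M v * β (bl v) (g0 ω)),
      if_pos (Finset.mem_univ _)]
  rw [Finset.sum_congr rfl fun ω _ => h2 ω, Finset.sum_comm]
  have h3 : ∀ b, ∑ ω, (∑ v, if bl v = b then wK w M v else 0) * (μ ω * β b (g0 ω)) ≤
      (∑ v, if bl v = b then wK w M v else 0) * m := by
    intro b
    rw [← Finset.mul_sum]
    apply mul_le_mul_of_nonneg_left (hex b)
    apply Finset.sum_nonneg
    intro v _
    split_ifs
    · exact wK_nonneg hw M v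
    · exact le_rfl
  refine (Finset.sum_le_sum fun b _ => h3 b).trans (le_of_eq ?_)
  rw [← Finset.sum_mul, Finset.sum_comm]
  have h4 : ∀ v : Fin M → V, ∑ b, (if bl v = b then wK w M v else 0) = wK w M v := by
    intro v
    rw [Finset.sum_ite_eq Finset.univ (bl v) fun _ => wK w M v, if_pos (Finset.mem_univ _)]
  rw [Finset.sum_congr rfl fun v _ => h4 v, sum_wK hw1 M, one_mul]

/-- along a progression at most all levels are met -/
theorem prog_le (D l0 L X n : ℕ) (hD : 1 ≤ D) (hn : l0 + L * D + X ≤ n) (P : ℕ → Prop) [DecidablePred P] :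
    (∑ t ∈ range L, (if P (l0 + t * D + X) then (1 : ℝ) else 0)) ≤
      ∑ J ∈ range (n + 1), (if P J then (1 : ℝ) else 0) := by
  have hinj : Set.InjOn (fun t => l0 + t * D + X) (range L : Set ℕ) := by
    intro t _ t' _ e
    have e1 : t * D = t' * D := by
      have : l0 + t * D + X = l0 + t' * D + X := e
      omega
    exact Nat.eq_of_mul_eq_mul_right hD e1
  rw [← Finset.sum_image (f := fun J => if P J then (1 : ℝ) else 0) hinj]
  apply Finset.sum_le_sum_of_subset_of_nonneg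
  · intro J hJ
    rw [Finset.mem_image] at hJ
    obtain ⟨t, ht, rfl⟩ := hJ
    rw [Finset.mem_range] at ht ⊢
    have : t * D ≤ L * D := Nat.mul_le_mul_right D ht.le
    omega
  · intro J _ _
    split_ifs <;> norm_num

/-- **the bad mass of the selected block along a progression** -/
theorem bad_sum {K M : ℕ} (μ : Ω → ℝ) (hμ : ∀ ω, 0 ≤ μ ω) (hm : ∑ ω, μ ω = 1)
    (Q : Fin K → Ω → Fin (1 + 1) → κ) (w : V → ℝ)
    (hw : ∀ v, 0 ≤ w v) (hw1 : ∑ v, w v = 1) (κ' : Fin M → Type) (G : ∀ i, Ω → κ' i) (W : Ω → Fin M → V)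
    (ε : Fin M → ℝ) (hε : ∀ i, 0 ≤ ε i)
    (hG : ∀ i ω ω', μ ω ≠ 0 → μ ω' ≠ 0 → G i ω = G i ω' →
      (∀ b, Q b ω = Q b ω') ∧ ∀ j, j < i → W ω j = W ω' j)
    (bl : (Fin M → V) → Fin K) (Bd : ℕ → κ → κ → Prop) (VV : Ω → Prop) (X : Ω → ℕ)
    (l0 D L n : ℕ) (hD : 1 ≤ D) (hn : ∀ ω, μ ω ≠ 0 → VV ω → l0 + L * D + X ω ≤ n) (m : ℝ)
    (hex : ∀ b, ∑ J ∈ range (n + 1), Pw μ (fun ω => Bd J (Q b ω 0) (Q b ω 1)) ≤ (n + 1) * m) :
    ∑ t ∈ range L, mass (res μ (fun ω => ¬ (VV ω ∧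
      ¬ Bd (l0 + t * D + X ω) (Q (bl (W ω)) ω 0) (Q (bl (W ω)) ω 1)))) ≤
      L * Pw μ (fun ω => ¬ VV ω) + (n + 1) *
        (m + ∑ i, (ε i + Pw μ (fun ω => ¬ Cle (cw μ (G i) ω) (fun ω => W ω i) w (ε i)))) := by
  classical
  have hn0 : (0 : ℝ) < n + 1 := by positivity
  set β : Fin K → (Fin K → Fin (1 + 1) → κ) → ℝ := fun b q =>
    (∑ J ∈ range (n + 1), (if Bd J (q b 0) (q b 1) then (1 : ℝ) else 0)) / (n + 1) with hβdef
  have hβ : ∀ b d, 0 ≤ β b d ∧ β b d ≤ 1 := by
    intro b d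
    constructor
    · apply div_nonneg _ hn0.le
      apply Finset.sum_nonneg
      intro J _
      split_ifs <;> norm_num
    · rw [div_le_one hn0]
      calc ∑ J ∈ range (n + 1), (if Bd J (d b 0) (d b 1) then (1 : ℝ) else 0) ≤ ∑ _J ∈ range (n + 1), (1 : ℝ) := by
            apply Finset.sum_le_sum
            intro J _
            split_ifs <;> norm_num
        _ = n + 1 := by
            rw [Finset.sum_const, Finset.card_range, nsmul_eq_mul, mul_one]
            push_cast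
            ring
  have key := bad_sel μ hμ hm (fun ω => fun b => Q b ω) w hw hw1 κ' G W ε hε
    (fun i ω ω' x x' e => ⟨funext fun b => (hG i ω ω' x x' e).1 b, (hG i ω ω' x x' e).2⟩) bl β hβ m
    (fun b => by
      have h1 := hex b
      have h2 : ∑ ω, μ ω * β b (fun b => Q b ω) =
          (∑ J ∈ range (n + 1), Pw μ (fun ω => Bd J (Q b ω 0) (Q b ω 1))) / (n + 1) := by
        rw [eq_div_iff hn0.ne', Finset.sum_mul]
        unfold Pw
        rw [Finset.sum_comm]
        apply Finset.sum_congr rfl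
        intro ω _
        have h3 : β b (fun b => Q b ω) * (n + 1) =
            ∑ J ∈ range (n + 1), (if Bd J (Q b ω 0) (Q b ω 1) then (1 : ℝ) else 0) := by
          simp only [hβdef]
          rw [div_mul_cancel₀ _ hn0.ne']
        rw [mul_assoc, h3, Finset.mul_sum]
        apply Finset.sum_congr rfl
        intro J _
        split_ifs <;> simp
      rw [h2, div_le_iff₀ hn0]
      linarith)
  have h4 : ∑ t ∈ range L, mass (res μ (fun ω => ¬ (VV ω ∧
      ¬ Bd (l0 + t * D + X ω) (Q (bl (W ω)) ω 0) (Q (bl (W ω)) ω 1)))) ≤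
      ∑ ω, (L * (if ¬ VV ω then μ ω else 0) + (n + 1) * (μ ω * β (bl (W ω)) (fun b => Q b ω))) := by
    unfold mass
    rw [Finset.sum_comm]
    apply Finset.sum_le_sum
    intro ω _
    by_cases h0 : μ ω = 0
    · rw [h0]
      have h5 : ∀ t ∈ range L, res μ (fun ω => ¬ (VV ω ∧
          ¬ Bd (l0 + t * D + X ω) (Q (bl (W ω)) ω 0) (Q (bl (W ω)) ω 1))) ω = 0 := by
        intro t _
        unfold res
        rw [h0]
        split_ifs <;> rfl
      rw [Finset.sum_eq_zero h5]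
      simp
    · by_cases hv : VV ω
      · rw [if_neg (not_not.2 hv), mul_zero, zero_add]
        have h5 : ∀ t ∈ range L, res μ (fun ω => ¬ (VV ω ∧
            ¬ Bd (l0 + t * D + X ω) (Q (bl (W ω)) ω 0) (Q (bl (W ω)) ω 1))) ω =
            μ ω * (if Bd (l0 + t * D + X ω) (Q (bl (W ω)) ω 0) (Q (bl (W ω)) ω 1) then (1 : ℝ) else 0) := by
          intro t _
          unfold res
          by_cases hb : Bd (l0 + t * D + X ω) (Q (bl (W ω)) ω 0) (Q (bl (W ω)) ω 1)
          · rw [if_pos hb, if_pos (fun h => h.2 hb), mul_one]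
          · rw [if_neg hb, if_neg (not_not.2 ⟨hv, hb⟩), mul_zero]
        rw [Finset.sum_congr rfl h5, ← Finset.mul_sum]
        have h6 := prog_le D l0 L (X ω) n hD (hn ω h0 hv)
          (fun J => Bd J (Q (bl (W ω)) ω 0) (Q (bl (W ω)) ω 1))
        have h7 : (n + 1) * (μ ω * β (bl (W ω)) (fun b => Q b ω)) = μ ω *
            ∑ J ∈ range (n + 1), (if Bd J (Q (bl (W ω)) ω 0) (Q (bl (W ω)) ω 1) then (1 : ℝ) else 0) := by
          simp only [hβdef]
          field_simp
        rw [h7]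
        exact mul_le_mul_of_nonneg_left h6 (hμ ω)
      · rw [if_pos hv]
        have h5 : ∀ t ∈ range L, res μ (fun ω => ¬ (VV ω ∧
            ¬ Bd (l0 + t * D + X ω) (Q (bl (W ω)) ω 0) (Q (bl (W ω)) ω 1))) ω ≤ μ ω := by
          intro t _
          unfold res
          split_ifs
          · exact le_rfl
          · exact hμ ω
        refine (Finset.sum_le_sum h5).trans ?_
        rw [Finset.sum_const, Finset.card_range, nsmul_eq_mul]
        have := mul_nonneg hn0.le (mul_nonneg (hμ ω) (hβ (bl (W ω)) (fun b => Q b ω)).1)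
        linarith
  refine h4.trans ?_
  rw [Finset.sum_add_distrib, ← Finset.mul_sum, ← Finset.mul_sum]
  have h8 : (∑ ω, if ¬ VV ω then μ ω else 0) = Pw μ (fun ω => ¬ VV ω) := by
    unfold Pw
    apply Finset.sum_congr rfl
    intro ω _
    by_cases hv : VV ω <;> simp [hv]
  rw [h8]
  exact add_le_add le_rfl (mul_le_mul_of_nonneg_left key hn0.le)

end Pool.Agent.Helper6.FW
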