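import Pool.Agent.Helper6.FW.Slot
import Pool.Agent.Helper99.FW.Tnd

/-!
# The vectors of a block of eight points (FW, row [K])
-/

set_option autoImplicit false

namespace Pool.Agent.Helper6.FW

open Finset Matrix Pool.Agent.Helper69.RK Pool.Agent.Helper46.WF Pool.Agent.Helper58.VW Pool.Agent.Helper58.TR
open Pool.Agent.Helper9.ND Pool.Agent.Helper99.FW
open Pool.Agent.Helper9.VB (tr)

variable {α : Type} {N : ℕ}

/-- the blocks of eight of a tuple -/
def by8 {γ : Type} {K : ℕ} (f : Fin (8 * K) → γ) (b : Fin K) (j : Fin 8) : γ := f ⟨8 * b.1 + j.1, by omega⟩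

/-- the two quadruples of a block -/
def qd {γ : Type} (u : Fin (1 + 1)) (g : Fin 8 → γ) : Fin 4 → γ := if u = 0 then lft g else rgt g

theorem qd_zero {γ : Type} (g : Fin 8 → γ) : qd 0 g = lft g := rfl

theorem qd_one {γ : Type} (g : Fin 8 → γ) : qd 1 g = rgt g := rfl

/-- the times of the units of a block -/
noncomputable def etV (c : ℝ) (T : α → ℝ) (g : Fin 8 → α) (u : Fin (1 + 1)) : ℝ := c * al4 (fun i => T (qd u g i))

/-- the vectors of the units of a block -/
noncomputable def sV (c : ℝ) (A : α → Fin N → ℝ) (g : Fin 8 → α) (u : Fin (1 + 1)) : Fin N → ℝ :=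
  c • al4 (fun i => A (qd u g i))

/-- the truncated scale of a block -/
noncomputable def thV' (h : ℝ) (b : NB N) (T : α → ℝ) (A : α → Fin N → ℝ) (g : Fin 8 → α) : ℝ :=
  h / max 1 ‖b.M *ᵥ Dl h T A g‖

/-- valid blocks -/
def Vd (ρ D m r : ℕ) (b : NB N) (T : α → ℝ) (A : α → Fin N → ℝ) (g : Fin 8 → α) : Prop :=
  Gdw (2 ^ (ρ - D)) r (cstV (fun i => wnV ρ m r b T A (g i)))

/-- the vector of a valid block -/
theorem wc_valid {V : Prop} (hV : V) (c h : ℝ) (hc : c ≠ 0) (b : NB N) (T : α → ℝ) (A : α → Fin N → ℝ)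
    (g : Fin 8 → α) :
    wc V (thV' h b T A g) (etV c T g) (sV c A g) = (1 / max 1 ‖b.M *ᵥ Dl h T A g‖) • Dl h T A g := by
  set m0 : ℝ := max 1 ‖b.M *ᵥ Dl h T A g‖ with hm0
  have hm : 0 < m0 := lt_of_lt_of_le one_pos (le_max_left _ _)
  unfold wc ac
  rw [if_pos hV, if_pos hV, Fin.sum_univ_two]
  have e0 : etV c T g 0 = c * al4 (fun i => T (lft g i)) := rfl
  have e1 : etV c T g 1 = c * al4 (fun i => T (rgt g i)) := rfl
  have f0 : sV c A g 0 = c • al4 (fun i => A (lft g i)) := rfl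
  have f1 : sV c A g 1 = c • al4 (fun i => A (rgt g i)) := rfl
  show (thV' h b T A g / etV c T g 0) • sV c A g 0 + (-(thV' h b T A g / etV c T g 1)) • sV c A g 1 = _
  rw [e0, e1, f0, f1, smul_smul, smul_smul]
  have g0 : thV' h b T A g / (c * al4 (fun i => T (lft g i))) * c = (1 / m0) * (h / al4 (fun i => T (lft g i))) := by
    unfold thV'
    rw [← hm0]
    field_simp
  have g1 : -(thV' h b T A g / (c * al4 (fun i => T (rgt g i)))) * c = -((1 / m0) * (h / al4 (fun i => T (rgt g i)))) := by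
    unfold thV'
    rw [← hm0]
    field_simp
  rw [g0, g1]
  unfold Dl Sl Yq
  rw [smul_sub, smul_smul, smul_smul, neg_smul, ← sub_eq_add_neg]

end Pool.Agent.Helper6.FW
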