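import Pool.Agent.Helper6.FW.KiS
import Pool.Agent.Helper6.FW.Bad
import Pool.Agent.Helper25.FA.Kin
import Pool.Agent.Helper58.FW.SelX
import Pool.Agent.Helper61.FW.Cfin
import Pool.Agent.Helper15.VG.Adq
import Pool.Agent.Helper78.FW.Badh
import Pool.Agent.Helper62.FW.Rec

/-!
# The chain of one source row: vertices, blocks, walk (FW, row [K])
-/

set_option autoImplicit false

namespace Pool.Agent.Helper6.FW

open Finset Pool.Agent.Helper69.RK Pool.Agent.Helper46.WF Pool.Agent.Helper58.VW Pool.Agent.Helper58.TR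
open Pool.Agent.Helper9.ND Pool.Agent.Helper99.FW Pool.Agent.Helper92.FW Pool.Agent.Helper25.FA Pool.Agent.Helper61.FW
open Pool.Agent.Helper15.VW Pool.Agent.Helper15.VG Pool.Agent.Helper78.FW Pool.Agent.Helper58.FW
open Pool.Agent.Helper22.FW Pool.Agent.Helper70.FW
open Pool.Agent.Helper61.GL hiding fl
open Pool.Agent.Helper92.W (fl)
open Pool.Agent.Helper9.VB (tr)
open Pool.Agent.Helper31.EC (push_nn)
open scoped Matrix

/-! ### selection -/

section selection

variable {V : Type} {N K : ℕ}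

/-- the selected block: the one of `sel` if it is valid, else a valid block -/
noncomputable def blS [Fintype V] (T : V → Fin N → ℝ) (φ : Fin N → Fin N → ℝ) (c : ℝ) (Gd : V → Prop) (d0 : Fin K)
    (W : Fin K → V) (i : Fin N) : Fin K := by
  classical
  exact if h : ∃ k, sel T φ c W i = Sum.inl k ∧ Gd (W k) then h.choose
    else if h : ∃ k, Gd (W k) then h.choose else d0

theorem blS_good [Fintype V] {T : V → Fin N → ℝ} {φ : Fin N → Fin N → ℝ} {c : ℝ} {Gd : V → Prop} {d0 : Fin K}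
    {W : Fin K → V} (i : Fin N) (h : ∃ k, Gd (W k)) : Gd (W (blS T φ c Gd d0 W i)) := by
  classical
  unfold blS
  by_cases h1 : ∃ k, sel T φ c W i = Sum.inl k ∧ Gd (W k)
  · rw [dif_pos h1]
    exact h1.choose_spec.2
  · rw [dif_neg h1, dif_pos h]
    exact h.choose_spec

theorem blS_sel [Fintype V] {T : V → Fin N → ℝ} {φ : Fin N → Fin N → ℝ} {c : ℝ} {Gd : V → Prop} {d0 : Fin K}
    {W : Fin K → V} {i : Fin N} {k : Fin K} (h : sel T φ c W i = Sum.inl k) (hk : Gd (W k)) :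
    blS T φ c Gd d0 W i = k := by
  classical
  have h1 : ∃ k, sel T φ c W i = Sum.inl k ∧ Gd (W k) := ⟨k, h, hk⟩
  unfold blS
  rw [dif_pos h1]
  have h2 := h.symm.trans h1.choose_spec.1
  exact (Sum.inl.inj h2).symm

end selection

/-- the base law of the conditional chain -/
theorem push_cb {Ω' Λ γ : Type} [Fintype Ω'] [Fintype Λ] {ν : Ω' → ℝ} {π : Ω' → Λ} {l : Λ → ℝ}
    (hl : push π ν = l) (F : Λ → γ) (w : Λ) : push π (cb ν π l F w) = cw l F w := by
  classical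
  funext x
  have h1 : l x = ∑ ω' : Ω', (if π ω' = x then ν ω' else (0 : ℝ)) := by
    rw [← hl]
    rfl
  have h2 : push π (cb ν π l F w) x = ∑ ω' : Ω', (if π ω' = x then (if F (π ω') = F w then ν ω' else 0) / pr l F w
      else (0 : ℝ)) := rfl
  have h3 : cw l F w x = (if F x = F w then l x else 0) / pr l F w := rfl
  rw [h2, h3]
  by_cases hx : F x = F w
  · rw [if_pos hx, h1, Finset.sum_div]
    refine Finset.sum_congr rfl fun ω _ => ?_
    by_cases h4 : π ω = x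
    · rw [if_pos h4, if_pos h4, h4, if_pos hx]
    · rw [if_neg h4, if_neg h4, zero_div]
  · rw [if_neg hx, zero_div]
    refine Finset.sum_eq_zero fun ω _ => ?_
    by_cases h4 : π ω = x
    · rw [if_pos h4, h4, if_neg hx, zero_div]
    · rw [if_neg h4]

section chain

variable {Ω φ α β η : Type} [Fintype Ω] {N k K : ℕ} {D : ED Ω φ α β N} {Λ : Type} [Fintype Λ]
  {l : Λ → ℝ} {en : Fin (k + 2 * K) → Fin (k + 2 * K) → Λ → Ω} {E : ℝ}

/-- the vertices of the points `1, .., 8 K` of a chain -/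
def yv (D : ED Ω φ α β N) (en : Fin (k + 2 * K) → Fin (k + 2 * K) → Λ → Ω) (a b0 : Fin (k + 2 * K))
    (v : Lam Λ (Fin (k + 2 * K) → Ω) (8 * K)) : Fin (8 * K) → α :=
  fun i => D.P (pt (row en a) (8 * K) (i.1 + 1) v b0)

omit [Fintype Λ] in
theorem yv_eq (a b0 : Fin (k + 2 * K)) (v : Lam Λ (Fin (k + 2 * K) → Ω) (8 * K)) :
    yv D en a b0 v = tp (row en a) (fun x => D.P (x b0)) (8 * K) v := rfl

omit [Fintype Λ] in
theorem qd_Xp (a b0 : Fin (k + 2 * K)) (v : Lam Λ (Fin (k + 2 * K) → Ω) (8 * K)) (b : Fin K) (u : Fin (1 + 1))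
    (r : Fin 4) : qd u (by8 (yv D en a b0 v) b) r = Xp D en a b0 (8 * K) b u r v := by
  have h0 : ∀ (u : Fin 2) (r : Fin 4), qd u (by8 (yv D en a b0 v) b) r = Xp D en a b0 (8 * K) b u r v := by
    intro u r
    fin_cases u
    · show D.P (pt (row en a) (8 * K) (8 * b.1 + (Fin.castAdd 4 r).1 + 1) v b0) =
        D.P (pt (row en a) (8 * K) (8 * b.1 + 4 * 0 + r.1 + 1) v b0)
      rfl
    · show D.P (pt (row en a) (8 * K) (8 * b.1 + (4 + r.1) + 1) v b0) =
        D.P (pt (row en a) (8 * K) (8 * b.1 + 4 * 1 + r.1 + 1) v b0)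
      have : 8 * b.1 + (4 + r.1) + 1 = 8 * b.1 + 4 * 1 + r.1 + 1 := by omega
      rw [this]
  exact h0 u r

omit [Fintype Λ] in
theorem etV_eq (c : ℝ) (Tm : α → ℝ) (a b0 : Fin (k + 2 * K)) (v : Lam Λ (Fin (k + 2 * K) → Ω) (8 * K)) (b : Fin K)
    (u : Fin (1 + 1)) : etV c Tm (by8 (yv D en a b0 v) b) u =
      (-c) * etp Tm (fun r => Xp D en a b0 (8 * K) b u r v) := by
  unfold etV al4 etp
  simp only [qd_Xp]
  ring

omit [Fintype Λ] in
theorem sV_eq (c : ℝ) (Av : α → Fin N → ℝ) (a b0 : Fin (k + 2 * K)) (v : Lam Λ (Fin (k + 2 * K) → Ω) (8 * K))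
    (b : Fin K) (u : Fin (1 + 1)) : sV c Av (by8 (yv D en a b0 v) b) u =
      (-c) • stp Av (fun r => Xp D en a b0 (8 * K) b u r v) := by
  unfold sV al4
  simp only [qd_Xp]
  funext i
  simp only [Pi.smul_apply, Pi.add_apply, Pi.sub_apply, smul_eq_mul, stp]
  ring

/-- **THE WALK** in terms of the label -/
theorem walk_KI (h : AR D l en E) (nd : α → η) (a a0 b0 : Fin (k + 2 * K)) (Tm : α → ℝ) (Av : α → Fin N → ℝ)
    (Tq : β → ℝ) (Cq : β → Fin N → ℝ) (c : ℝ) (hom : ∀ p q i, D.om p q i = c * (Tm p * Cq q i - Av p i * Tq q))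
    (v : Lam Λ (Fin (k + 2 * K) → Ω) (8 * K)) (hv : chl D l en nd b0 (mvs k K) a (8 * K) v ≠ 0) (i : Fin N) :
    |(D.z (en a0 b0 (bs (8 * K) v)) - (fun i => (D.zd (cur (row en a) (8 * K) v b0) i : ℝ) / 2 ^ D.n) -
      ∑ b : Fin K, ∑ u : Fin (1 + 1), (Tq (Qp D en a (8 * K) b v u) • sV c Av (by8 (yv D en a b0 v) b) u -
        etV c Tm (by8 (yv D en a b0 v) b) u • Cq (Qp D en a (8 * K) b v u))) i| * 2 ^ D.n ≤ 24 * K + 2 := by
  have hp : (0 : ℝ) < 2 ^ D.n := by positivity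
  have h1 := h.kwalk' nd a b0 Tm Av Tq Cq c hom v hv i
  have hl0 : l (bs (8 * K) v) ≠ 0 := (law_supp l (row en a) _ (fun i => gl D nd b0 (mvs k K i)) h.nn rfl (8 * K) v hv).1
  have h2 : |D.z (en a0 b0 (bs (8 * K) v)) i - D.z (en a b0 (bs (8 * K) v)) i| * 2 ^ D.n < 1 :=
    fl_lt D.n (congrFun (h.sZ _ hl0 a0 b0 a b0) i)
  have h3 : |D.z (cur (row en a) (8 * K) v b0) i - (D.zd (cur (row en a) (8 * K) v b0) i : ℝ) / 2 ^ D.n| * 2 ^ D.n ≤ 1 := by
    set x := D.z (cur (row en a) (8 * K) v b0) i with hx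
    have e1 : ((D.zd (cur (row en a) (8 * K) v b0) i : ℤ) : ℝ) ≤ 2 ^ D.n * x := Int.floor_le _
    have e2 : 2 ^ D.n * x < ((D.zd (cur (row en a) (8 * K) v b0) i : ℤ) : ℝ) + 1 := Int.lt_floor_add_one _
    rw [← abs_of_pos hp, ← abs_mul, abs_of_pos hp, sub_mul, div_mul_cancel₀ _ hp.ne', abs_le]
    constructor <;> nlinarith
  set S1 : Fin N → ℝ := ∑ b : Fin K, ∑ e : Fin 2,
        (Tq (Qp D en a (8 * K) b v e) • ((-c) • stp Av (fun r => Xp D en a b0 (8 * K) b e r v)) -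
          ((-c) * etp Tm (fun r => Xp D en a b0 (8 * K) b e r v)) • Cq (Qp D en a (8 * K) b v e)) with hS1
  have h4 : ∑ b : Fin K, ∑ u : Fin (1 + 1), (Tq (Qp D en a (8 * K) b v u) • sV c Av (by8 (yv D en a b0 v) b) u -
        etV c Tm (by8 (yv D en a b0 v) b) u • Cq (Qp D en a (8 * K) b v u)) = S1 := by
    rw [hS1]
    refine Finset.sum_congr rfl fun b _ => Finset.sum_congr rfl fun u _ => ?_
    rw [etV_eq, sV_eq]
  rw [h4]
  have h5 : |(D.z (en a0 b0 (bs (8 * K) v)) - (fun i => (D.zd (cur (row en a) (8 * K) v b0) i : ℝ) / 2 ^ D.n) - S1) i| ≤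
      |(D.z (en a b0 (bs (8 * K) v)) - D.z (cur (row en a) (8 * K) v b0) - S1) i| +
      |D.z (en a0 b0 (bs (8 * K) v)) i - D.z (en a b0 (bs (8 * K) v)) i| +
      |D.z (cur (row en a) (8 * K) v b0) i - (D.zd (cur (row en a) (8 * K) v b0) i : ℝ) / 2 ^ D.n| := by
    have e : (D.z (en a0 b0 (bs (8 * K) v)) - (fun i => (D.zd (cur (row en a) (8 * K) v b0) i : ℝ) / 2 ^ D.n) - S1) i =
        (D.z (en a b0 (bs (8 * K) v)) - D.z (cur (row en a) (8 * K) v b0) - S1) i +
        (D.z (en a0 b0 (bs (8 * K) v)) i - D.z (en a b0 (bs (8 * K) v)) i) +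
        (D.z (cur (row en a) (8 * K) v b0) i - (D.zd (cur (row en a) (8 * K) v b0) i : ℝ) / 2 ^ D.n) := by
      simp only [Pi.sub_apply]
      ring
    rw [e]
    exact (abs_add_le _ _).trans (add_le_add (abs_add_le _ _) le_rfl)
  have h6 := mul_le_mul_of_nonneg_right h5 hp.le
  rw [add_mul, add_mul] at h6
  linarith

/-- the vertices of the chain are in the support and have the node of the source -/
theorem pts_KI [Fintype α] (h : AR D l en E) (nd : α → η) (a b0 : Fin (k + 2 * K)) (mv : ℕ → Option (Fin (k + 2 * K))) {M : ℕ}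
    (v : Lam Λ (Fin (k + 2 * K) → Ω) M) (hv : chl D l en nd b0 mv a M v ≠ 0) (i : ℕ) (hi : i ≤ M) :
    push D.P D.μ (D.P (pt (row en a) M i v b0)) ≠ 0 ∧
      nd (D.P (pt (row en a) M i v b0)) = nd (D.P (en a b0 (bs M v))) := by
  obtain ⟨-, h2, -⟩ := law_supp l (row en a) _ (fun i => gl D nd b0 (mv i)) h.nn rfl M v hv
  constructor
  · have h3 := h2 i hi
    obtain ⟨w, hw, hww⟩ := push_ne (row en a) l _ h3
    have h4 : D.μ (pt (row en a) M i v b0) ≠ 0 := by
      rw [← h.pu a b0, ← hww]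
      exact Pool.Agent.Helper6.VS.push_supp (en a b0) l h.nn w hw
    have hμ : ∀ ω, 0 ≤ D.μ ω := by
      intro ω
      rw [← h.pu a b0]
      exact push_nn _ _ h.nn ω
    exact Pool.Agent.Helper6.VS.push_supp D.P D.μ hμ _ h4
  · have h3 := h.const nd b0 mv a M v hv i hi
    unfold g0 at h3
    simp only [Prod.mk.injEq] at h3
    exact h3.1.2

end chain

/-! ### records -/

section recs

variable {Pt φ R : Type}

theorem recs_le (E : ℕ → (Pt → Lb φ R) → Pt → R) (F : Pt → φ) (T : Pt → ℝ) (P : ℕ) (o : ℕ → ℕ) {i L : ℕ}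
    (hi : i ≤ L) {q q' : Pt} (h : recs E F T P o L q = recs E F T P o L q') :
    recs E F T P o i q = recs E F T P o i q' := by
  induction L with
  | zero =>
    have : i = 0 := by omega
    subst this
    exact h
  | succ L ih =>
    rcases Nat.lt_or_ge i (L + 1) with h1 | h1
    · exact ih (by omega) ((recs_succ_eq_iff E F T P o L q q').mp h).1
    · have : i = L + 1 := by omega
      subst this
      exact h

/-- the body of a node depends on the base label, the cell and the records -/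
theorem bL_congr {N : ℕ} (S : Sd φ Pt R N) {L J : ℕ} (hJ : J / S.P ≤ L) {q q' : Pt} (hF : S.F q = S.F q')
    (hr : recs S.E S.F S.T S.P S.o L q = recs S.E S.F S.T S.P S.o L q')
    (ht : cl J (S.T q) = cl J (S.T q')) : S.bL J q = S.bL J q' := by
  unfold Sd.bL
  congr 1
  unfold Sd.nL Sd.n nd
  rw [Nat.div_add_mod', hF, ht, recs_le S.E S.F S.T S.P S.o hJ hr]

end recs

end Pool.Agent.Helper6.FW
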