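import Pool.Agent.Helper6.FW.RowK
import Pool.Agent.Helper6.FW.Blk
import Pool.Agent.Helper92.FW.Spn

/-!
# Spanning of the frame of a body, bodies in units of an admissible family (FW, row [K])
-/

set_option autoImplicit false

namespace Pool.Agent.Helper6.FW

open Finset Matrix Pool.Agent.Helper69.RK Pool.Agent.Helper46.WF Pool.Agent.Helper58.VW Pool.Agent.Helper58.TR
open Pool.Agent.Helper9.ND Pool.Agent.Helper99.FW Pool.Agent.Helper92.FW
open Pool.Agent.Helper15.VW Pool.Agent.Helper15.VG Pool.Agent.Helper78.FW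
open Pool.Agent.Helper9.VB (tr)

variable {V : Type} {N : ℕ}

/-- the frame in the coordinates of the body -/
theorem mul_fr (b : NB N) (hdet : b.M.det ≠ 0) (i : Fin N) : b.M *ᵥ b.fr i = Pi.single i 1 := by
  have h1 : b.fr i = b.M⁻¹ *ᵥ (Pi.single i 1) := by
    funext j
    rw [Matrix.mulVec_single_one]
    rfl
  rw [h1, Matrix.mulVec_mulVec, Matrix.mul_nonsing_inv _ (isUnit_iff_ne_zero.mpr hdet), Matrix.one_mulVec]

theorem inj_M (b : NB N) (hdet : b.M.det ≠ 0) {x y : Fin N → ℝ} (h : b.M *ᵥ x = b.M *ᵥ y) : x = y := by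
  have h1 := congrArg (fun v => b.M⁻¹ *ᵥ v) h
  simp only [Matrix.mulVec_mulVec, Matrix.nonsing_inv_mul _ (isUnit_iff_ne_zero.mpr hdet), Matrix.one_mulVec] at h1
  exact h1

/-- **the selected blocks span the frame of the body** -/
theorem spd_of_seen [Fintype V] {K : ℕ} (hN : 0 < N) (b : NB N) (hdet : b.M.det ≠ 0) {g : ℝ} (hg : 0 < g)
    (hflo : ∀ i, ‖b.M *ᵥ (Pi.single i g : Fin N → ℝ)‖ ≤ 1) (T : V → Fin N → ℝ) (hT : ∀ v, ‖T v‖ ≤ 1)
    (W : Fin K → V) (h : Seen T (fun i => b.M *ᵥ (Pi.single i g : Fin N → ℝ)) (1 / (8 * N)) W)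
    (y : Fin K → Fin N → ℝ) (hy : ∀ k, T (W k) ≠ 0 → ‖b.M *ᵥ y k - T (W k)‖ ≤ 1 / (8 * N * (4 * N + 2)))
    {C : ℝ} (hC : 32 * (N : ℝ) ^ 2 ≤ C) (wv : Fin N → Fin N → ℝ)
    (hwv : ∀ i k, sel T (fun i => b.M *ᵥ (Pi.single i g : Fin N → ℝ)) (1 / (8 * N)) W i = Sum.inl k → wv i = y k)
    (i0 : Fin N) : Spd g C wv (b.fr i0) := by
  classical
  have hNr : (1 : ℝ) ≤ N := by exact_mod_cast hN
  have hc : (0 : ℝ) < 1 / (8 * N) := by positivity
  set φ : Fin N → Fin N → ℝ := fun i => b.M *ᵥ (Pi.single i g : Fin N → ℝ) with hφ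
  obtain ⟨t, ht, htv⟩ := sel_span hc hT hflo h (fun k => b.M *ᵥ y k) (fun i k hk => by
    have h1 := hy k (sel_ne hc hT hflo h hk)
    refine h1.trans (le_of_eq ?_)
    rw [div_div]) (b.M *ᵥ b.fr i0)
  have ht' : ∀ i, |t i| ≤ 32 * N := by
    intro i
    refine (ht i).trans (le_of_eq ?_)
    rw [mul_fr b hdet i0, Pi.norm_single, norm_one]
    field_simp
    norm_num
  set s := sel T φ (1 / (8 * N)) W with hs
  -- the two parts
  set cc : Fin N → ℝ := fun i => Sum.elim (fun _ => t i) (fun _ => 0) (s i) with hcc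
  set ff : Fin N → Fin N → ℝ := fun i => Sum.elim (fun _ => 0) (fun k => t i • (Pi.single k g : Fin N → ℝ)) (s i)
    with hff
  refine ⟨cc, ∑ i, ff i, ?_, ?_, ?_⟩
  · apply inj_M b hdet
    rw [htv, Matrix.mulVec_add, Matrix.mulVec_sum, Matrix.mulVec_sum, ← Finset.sum_add_distrib]
    refine Finset.sum_congr rfl fun i _ => ?_
    rcases hsi : s i with k | k
    · have e1 : cc i = t i := by
        rw [hcc]
        simp only [hsi, Sum.elim_inl]
      have e2 : ff i = 0 := by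
        rw [hff]
        simp only [hsi, Sum.elim_inl]
      rw [e1, e2, Matrix.mulVec_zero, add_zero, Matrix.mulVec_smul, hwv i k hsi]
      rfl
    · have e1 : cc i = 0 := by
        rw [hcc]
        simp only [hsi, Sum.elim_inr]
      have e2 : ff i = t i • (Pi.single k g : Fin N → ℝ) := by
        rw [hff]
        simp only [hsi, Sum.elim_inr]
      rw [e1, e2, zero_smul, Matrix.mulVec_zero, zero_add, Matrix.mulVec_smul]
      rfl
  · intro i
    have h1 : |cc i| ≤ 32 * N := by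
      rcases hsi : s i with k | k
      · have e1 : cc i = t i := by
          rw [hcc]
          simp only [hsi, Sum.elim_inl]
        rw [e1]
        exact ht' i
      · have e1 : cc i = 0 := by
          rw [hcc]
          simp only [hsi, Sum.elim_inr]
        rw [e1, abs_zero]
        positivity
    refine h1.trans (le_trans ?_ hC)
    nlinarith
  · intro j
    rw [Finset.sum_apply]
    refine (Finset.abs_sum_le_sum_abs _ _).trans ?_
    have h1 : ∀ i ∈ (univ : Finset (Fin N)), |ff i j| ≤ 32 * N * g := by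
      intro i _
      rcases hsi : s i with k | k
      · have e2 : ff i = 0 := by
          rw [hff]
          simp only [hsi, Sum.elim_inl]
        rw [e2, Pi.zero_apply, abs_zero]
        positivity
      · have e2 : ff i = t i • (Pi.single k g : Fin N → ℝ) := by
          rw [hff]
          simp only [hsi, Sum.elim_inr]
        rw [e2, Pi.smul_apply, smul_eq_mul, abs_mul]
        refine mul_le_mul (ht' i) ?_ (abs_nonneg _) (by positivity)
        by_cases hj : j = k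
        · subst hj
          rw [Pi.single_eq_same, abs_of_pos hg]
        · rw [Pi.single_eq_of_ne hj, abs_zero]
          exact hg.le
    refine (Finset.sum_le_sum h1).trans ?_
    rw [Finset.sum_const, Finset.card_fin, nsmul_eq_mul]
    have h2 : (N : ℝ) * (32 * N * g) = (32 * (N : ℝ) ^ 2) * g := by ring
    rw [h2]
    exact mul_le_mul_of_nonneg_right hC hg.le

/-- vectors of the body in the frame of an admissible family -/
theorem body_frm {φ : ℝ} (hφ : 0 < φ) {Z : Multiset (Fin N → ℝ)} (hZ : fam (flr (N := N) φ) ≤ Z) (b : NB N)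
    (hdet : b.M.det ≠ 0) {R : ℕ} (hown : ∀ i, InB Z (((1 : ℝ) / 2) ^ R • b.fr i)) {v : Fin N → ℝ}
    (hv : ‖b.M *ᵥ v‖ ≤ 1) (i : Fin N) : |((frm Z)⁻¹ *ᵥ v) i| ≤ N ^ 2 * 2 ^ R := by
  classical
  have h1 : v = ∑ k, (b.M *ᵥ v) k • b.fr k := by
    apply inj_M b hdet
    rw [Matrix.mulVec_sum]
    have h2 : ∀ k, b.M *ᵥ ((b.M *ᵥ v) k • b.fr k) = Pi.single k ((b.M *ᵥ v) k) := by
      intro k
      rw [Matrix.mulVec_smul, mul_fr b hdet k, ← Pi.single_smul, smul_eq_mul, mul_one]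
    rw [Finset.sum_congr rfl fun k _ => h2 k, Finset.univ_sum_single]
  rw [h1, Matrix.mulVec_sum, Finset.sum_apply]
  refine (Finset.abs_sum_le_sum_abs _ _).trans ?_
  have h3 : ∀ k ∈ (univ : Finset (Fin N)), |((frm Z)⁻¹ *ᵥ ((b.M *ᵥ v) k • b.fr k)) i| ≤ N * 2 ^ R := by
    intro k _
    rw [Matrix.mulVec_smul, Pi.smul_apply, smul_eq_mul, abs_mul]
    have h4 := frm_smul_inB hφ hZ (hown k) i
    have h5 : |(b.M *ᵥ v) k| ≤ 1 := by
      have := norm_le_pi_norm (b.M *ᵥ v) k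
      rw [Real.norm_eq_abs] at this
      exact this.trans hv
    calc |(b.M *ᵥ v) k| * |((frm Z)⁻¹ *ᵥ b.fr k) i| ≤ 1 * (N * 2 ^ R) :=
          mul_le_mul h5 h4 (abs_nonneg _) zero_le_one
      _ = N * 2 ^ R := one_mul _
  refine (Finset.sum_le_sum h3).trans (le_of_eq ?_)
  rw [Finset.sum_const, Finset.card_fin, nsmul_eq_mul]
  ring

/-- vectors of bounded size in the frame of a family with the floor -/
theorem size_frm {φ : ℝ} (hφ : 0 < φ) {Z : Multiset (Fin N → ℝ)} (hZ : fam (flr (N := N) φ) ≤ Z)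
    {v : Fin N → ℝ} {s : ℝ} (hs : 0 ≤ s) (hv : ‖v‖ ≤ s) (i : Fin N) : |((frm Z)⁻¹ *ᵥ v) i| ≤ N * (s / φ) := by
  refine frm_floor hφ hZ (div_nonneg hs hφ.le) (fun j => ?_) i
  rw [div_mul_cancel₀ _ hφ.ne']
  have := norm_le_pi_norm v j
  rw [Real.norm_eq_abs] at this
  exact this.trans hv

/-- the norm in the frame of a family, as a seminorm -/
noncomputable def sfr (Z : Multiset (Fin N → ℝ)) (t : NNReal) : Seminorm ℝ (Fin N → ℝ) :=
  t • (normSeminorm ℝ (Fin N → ℝ)).comp (Matrix.toLin' (frm Z)⁻¹)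

theorem sfr_apply (Z : Multiset (Fin N → ℝ)) (t : NNReal) (v : Fin N → ℝ) :
    sfr Z t v = t * ‖(frm Z)⁻¹ *ᵥ v‖ := by
  unfold sfr
  rw [_root_.smul_apply, Seminorm.comp_apply, Matrix.toLin'_apply]
  rfl

/-- **seminorm bounds give coordinate bounds** -/
theorem frm_of_sn {φ : ℝ} (hφ : 0 < φ) (hN : 0 < N) {Z : Multiset (Fin N → ℝ)} (hZ : fam (flr (N := N) φ) ≤ Z)
    (F : Multiset (Fin N → ℝ)) (R : ℕ) (hF : ∀ u ∈ F, u ∈ fam (flr (N := N) φ) ∨ InB Z (((1 : ℝ) / 2) ^ R • u))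
    {v : Fin N → ℝ} {c : ℝ} (hv : ∀ P : Seminorm ℝ (Fin N → ℝ), (∀ u ∈ F, P u ≤ 1) → P v ≤ c) (i : Fin N) :
    |((frm Z)⁻¹ *ᵥ v) i| ≤ c * (N * 2 ^ R) := by
  have hNr : (1 : ℝ) ≤ N := by exact_mod_cast hN
  have h2 : (1 : ℝ) ≤ 2 ^ R := one_le_pow₀ (by norm_num)
  have hp : (0 : ℝ) < N * 2 ^ R := by positivity
  set t : NNReal := ⟨1 / (N * 2 ^ R), by positivity⟩ with ht
  have hts : (t : ℝ) = 1 / (N * 2 ^ R) := rfl
  have h1 := hv (sfr Z t) (by
    intro u hu
    rw [sfr_apply, hts]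
    have h3 : ‖(frm Z)⁻¹ *ᵥ u‖ ≤ N * 2 ^ R := by
      rw [pi_norm_le_iff_of_nonneg hp.le]
      intro j
      rw [Real.norm_eq_abs]
      rcases hF u hu with h3 | h3
      · refine (frm_mem hφ hZ (Multiset.mem_of_le hZ h3) j).trans ?_
        nlinarith
      · exact frm_smul_inB hφ hZ h3 j
    rw [one_div, inv_mul_le_iff₀ hp, mul_one]
    exact h3)
  rw [sfr_apply, hts] at h1
  have h4 : ‖(frm Z)⁻¹ *ᵥ v‖ ≤ c * (N * 2 ^ R) := by
    rw [one_div, inv_mul_le_iff₀ hp] at h1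
    linarith
  have h5 := norm_le_pi_norm ((frm Z)⁻¹ *ᵥ v) i
  rw [Real.norm_eq_abs] at h5
  exact h5.trans h4

end Pool.Agent.Helper6.FW
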