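import Pool.Agent.Helper6.FW.Inst

/-!
# ROW [K] for one source row: abstract tree on the left (FW)
-/

set_option autoImplicit false

namespace Pool.Agent.Helper6.FW

open Finset Pool.Agent.Helper69.RK Pool.Agent.Helper46.WF Pool.Agent.Helper58.VW Pool.Agent.Helper58.TR
open Pool.Agent.Helper9.ND Pool.Agent.Helper99.FW Pool.Agent.Helper92.FW Pool.Agent.Helper25.FA Pool.Agent.Helper61.FW
open Pool.Agent.Helper15.VW Pool.Agent.Helper15.VG Pool.Agent.Helper78.FW Pool.Agent.Helper58.FW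
open Pool.Agent.Helper22.FW hiding cN
open Pool.Agent.Helper70.FW Pool.Agent.Helper9.FW
open Pool.Agent.Helper61.GL hiding fl
open Pool.Agent.Helper92.W (fl)
open Pool.Agent.Helper9.VB (tr tr_norm)
open Pool.Agent.Helper31.EC (push_nn)
open scoped Matrix

variable {Ω φ α β η' R' : Type} [Fintype Ω] {N k K : ℕ} {D : ED Ω φ α β N} [Fintype α] {ρ η εQ ηQ c : ℝ}
  {tp : α → ℝ} {Ap : α → Fin N → ℝ} {Λ : Type} [Fintype Λ] [Fintype R'] [Nonempty R']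
  {l : Λ → ℝ} {en : Fin (k + 2 * K) → Fin (k + 2 * K) → Λ → Ω} {E : ℝ} {ρw r L R : ℕ} {φ0 : ℝ} {SR : Sd φ β R' N}

/-- **ROW [K] of one source row**, abstract node on the left side -/
theorem kiX (h : EdgD D ρ η εQ ηQ c tp SR.T Ap SR.A) (hFQ : ∀ ω, SR.F (D.Q ω) = D.F ω) (hr : AR D l en E)
    (a0 b0 : Fin (k + 2 * K)) {a : Fin (k + 2 * K)} (ha : a ∈ spc k K) (hK : 0 < K) (hN : 0 < N) (hφ0 : 0 < φ0)
    (hφ1 : φ0 ≤ 1) (hR6 : 6 ≤ R)
    -- the node of the source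
    (nd0 : α → η') (Wf : α → Fin (2 ^ ρw) × Rc N r) (bM : NB N) (hdet : bM.M.det ≠ 0)
    (hflo : ∀ i, ‖bM.M *ᵥ (Pi.single i φ0 : Fin N → ℝ)‖ ≤ 1) (hfl : ∀ v, ‖bM.M *ᵥ v‖ ≤ N / φ0 * ‖v‖)
    {w : Λ} (hw : l w ≠ 0) {m : ℕ}
    (hspec : ∀ y : Fin 8 → α, (∀ j, push D.P D.μ (y j) ≠ 0) → (∀ j, nd0 (y j) = nd0 (D.P (en a b0 w))) →
      Gdw (2 ^ (ρw - R)) r (cstV (fun j => Wf (y j))) →
      ((|1 / 2 ^ (m + R) / al4 (fun k => tp (lft y k))| ≤ 4 ∧ 1 / 13 ≤ |1 / 2 ^ (m + R) / al4 (fun k => tp (lft y k))| ∧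
        al4 (fun k => tp (lft y k)) ≠ 0) ∧
       (|1 / 2 ^ (m + R) / al4 (fun k => tp (rgt y k))| ≤ 4 ∧ 1 / 13 ≤ |1 / 2 ^ (m + R) / al4 (fun k => tp (rgt y k))| ∧
        al4 (fun k => tp (rgt y k)) ≠ 0)) ∧
      ‖tr (bM.M *ᵥ Dl (1 / 2 ^ (m + R)) tp Ap y) - ThV ρw R r (fun j => Wf (y j))‖ ≤ 1 / (8 * N * (4 * N + 2)))
    -- the right side
    (hFr : ∀ J q, FrOf (SR.bL J q).sn (SR.bL J q).fr) (hslo : ∀ J q, ‖(SR.bL J q).a‖ ≤ Kas N * 2 ^ J)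
    {S' C₀ : ℕ} {B : ℝ} {g R0 : ℕ} (hg : R0 ≤ g) (hRR : R ≤ R0) (hB : B ≤ φ0 * 2 ^ R0) (hB32 : 32 ≤ B)
    {M I l0 Xm : ℕ} (hMP : M ≤ L * SR.P) (hMn : M ≤ D.n) (hX : 416 * N ≤ φ0 * 2 ^ Xm) (hM : l0 + I * R + Xm ≤ M)
    (hn1 : N * (24 * K + 2) ≤ φ0 * 2 ^ D.n) (hn2 : N * (Kas N * 2 ^ M) ≤ φ0 * 2 ^ D.n)
    (i0 : Fin N) {G : Finset ℕ} (hG : G ⊆ range M) (Z : ℕ → Multiset (Fin N → ℝ)) (VA : ℕ → Finset (Fin N → ℝ))
    (hVA : ∀ i, bM.fr i ∈ VA m)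
    (hZ : ∀ t < I, Okb (fam (flr φ0)) B R R VA (VG (fun m => WS (frL SR m) (fun b => SR.nL m (D.Q (en a0 b w)))
      (spc k K)) G) m (l0 + t * R) (bM.fr i0) (Z t))
    {d bad : ℝ} (hd0 : 0 ≤ d)
    (hcount : ∀ b, 2 * (D.n : ℝ) - d ≤ CH (cb (chl D l en nd0 b0 (mvs k K) a (8 * K)) (bs (8 * K)) l (Fp D en a0 b0) w)
      (fun v => fun e => fl D.n (SR.T (Qp D en a (8 * K) b v e)))
      (fun v => (G0K D en a b0 v, off b (fun b v => Qp D en a (8 * K) b v) v)))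
    (hbad : ∀ (bl : (Fin (8 * K) → Fin (2 ^ ρw) × Rc N r) → Fin K)
      (VV : Lam Λ (Fin (k + 2 * K) → Ω) (8 * K) → Prop) (X : Lam Λ (Fin (k + 2 * K) → Ω) (8 * K) → ℕ),
      (∀ v, cb (chl D l en nd0 b0 (mvs k K) a (8 * K)) (bs (8 * K)) l (Fp D en a0 b0) w v ≠ 0 → VV v →
        l0 + I * R + X v ≤ M) →
      ∑ t ∈ range I, mass (res (cb (chl D l en nd0 b0 (mvs k K) a (8 * K)) (bs (8 * K)) l (Fp D en a0 b0) w)
        (fun v => ¬ (VV v ∧ ¬ (l0 + t * R + X v ∉ G ∨ BdQ SR S' C₀ 270000 φ0 D en a0 w (l0 + t * R + X v)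
          (Qp D en a (8 * K) (bl (fun i => Wf (yv D en a b0 v i))) v 0)
          (Qp D en a (8 * K) (bl (fun i => Wf (yv D en a b0 v i))) v 1))))) ≤
      I * Pw (cb (chl D l en nd0 b0 (mvs k K) a (8 * K)) (bs (8 * K)) l (Fp D en a0 b0) w) (fun v => ¬ VV v) + bad) :
    ∑ t ∈ range I, IZ (cw l (Fp D en a0 b0) w) (fun w => D.z (en a0 b0 w)) (fun _ => ()) g R0 (Z t)
      (((1 : ℝ) / 2) ^ (l0 + t * R) • bM.fr i0) ≤
    (N * cF2 N 1 (CK N C₀) + cP N + cN N ((N + N + 1) * CK N C₀)) * I +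
      (N * (K * d + 2 * (L * Real.logb 2 (Fintype.card R')) + cF1 1 (CK N C₀) + (R + cF3 N 1 (CK N C₀)) *
        (I * Pw (cb (chl D l en nd0 b0 (mvs k K) a (8 * K)) (bs (8 * K)) l (Fp D en a0 b0) w)
          (fun v => ∀ b, ¬ Gdw (2 ^ (ρw - R)) r (cstV (by8 (fun i => Wf (yv D en a b0 v i)) b))) + bad)) +
      (R + cT N ((N + N + 1) * CK N C₀)) *
        (I * Pw (cb (chl D l en nd0 b0 (mvs k K) a (8 * K)) (bs (8 * K)) l (Fp D en a0 b0) w)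
          (fun v => ¬ Seen (ThV ρw R r) (fun i => bM.M *ᵥ (Pi.single i φ0 : Fin N → ℝ)) (1 / (8 * N))
            (by8 (fun i => Wf (yv D en a b0 v i)))))) := by
  classical
  obtain ⟨C, hCdef⟩ : ∃ C, C = CK N C₀ := ⟨_, rfl⟩
  obtain ⟨hC1, hC2, hC3, hC4⟩ := CK_big (C₀ := C₀) hN
  rw [← hCdef] at hC1 hC2 hC3 hC4 ⊢
  have hNr : (1 : ℝ) ≤ N := by exact_mod_cast hN
  have hC0 : 0 ≤ C := by linarith
  -- the law
  set nu := chl D l en nd0 b0 (mvs k K) a (8 * K) with hnu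
  have hnun : ∀ v, 0 ≤ nu v := law_nonneg l (row en a) _ _ hr.nn rfl (8 * K)
  have hbs : push (bs (8 * K)) nu = l := law_bs l (row en a) _ _ hr.nn rfl (8 * K)
  set mu := cb nu (bs (8 * K)) l (Fp D en a0 b0) w with hmu
  have hmun : ∀ v, 0 ≤ mu v := cb_nonneg hbs (Fp D en a0 b0) hnun w
  have hmu1 : mass mu = 1 := cb_sum hbs (Fp D en a0 b0) hnun w hw
  have hsup : ∀ v, mu v ≠ 0 → nu v ≠ 0 ∧ D.P (en a b0 (bs (8 * K) v)) = D.P (en a b0 w) ∧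
      l (bs (8 * K) v) ≠ 0 := by
    intro v hv
    obtain ⟨h1, h2⟩ := cb_supp (Fp D en a0 b0) hv
    exact ⟨h2, fp_P D en a0 b0 ha h1, (law_supp l (row en a) _ _ hr.nn rfl (8 * K) v h2).1⟩
  -- vertices
  have hyv : ∀ v, mu v ≠ 0 → ∀ i, push D.P D.μ (yv D en a b0 v i) ≠ 0 ∧
      nd0 (yv D en a b0 v i) = nd0 (D.P (en a b0 w)) := by
    intro v hv i
    obtain ⟨h1, h2, -⟩ := hsup v hv
    have h3 := pts_KI hr nd0 a b0 (mvs k K) v h1 (i.1 + 1) (by omega)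
    rw [h2] at h3
    exact h3
  have hA1 : ∀ x, push D.P D.μ x ≠ 0 → ‖Ap x‖ ≤ 1 := fun x hx => pu_A h hx
  -- valid blocks
  set Gd : (Fin 8 → Fin (2 ^ ρw) × Rc N r) → Prop := fun v => Gdw (2 ^ (ρw - R)) r (cstV v) with hGd
  set hh : ℝ := 1 / 2 ^ (m + R) with hhh
  have hh0 : 0 < hh := by positivity
  have hh1 : 13 * hh ≤ 1 := by
    have h1 : (64 : ℝ) ≤ 2 ^ (m + R) := by
      calc (64 : ℝ) = 2 ^ 6 := by norm_num
        _ ≤ 2 ^ (m + R) := pow_le_pow_right₀ (by norm_num) (by omega)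
    rw [hhh, mul_one_div, div_le_one (by positivity)]
    linarith
  have hblk : ∀ v, mu v ≠ 0 → ∀ b, Gd (fun j => Wf (by8 (yv D en a b0 v) b j)) →
      ((∀ u, hh ≤ 13 * |etV c tp (by8 (yv D en a b0 v) b) u| ∧ |etV c tp (by8 (yv D en a b0 v) b) u| ≤ 13 * hh) ∧
        ‖Dl hh tp Ap (by8 (yv D en a b0 v) b)‖ ≤ 32 ∧ ∀ u, ‖sV c Ap (by8 (yv D en a b0 v) b) u‖ ≤ 4) ∧
      ‖tr (bM.M *ᵥ Dl hh tp Ap (by8 (yv D en a b0 v) b)) - ThV ρw R r (fun j => Wf (by8 (yv D en a b0 v) b j))‖ ≤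
        1 / (8 * N * (4 * N + 2)) := by
    intro v hv b hb
    obtain ⟨⟨h1, h2⟩, h3⟩ := hspec (by8 (yv D en a b0 v) b) (fun j => (hyv v hv _).1) (fun j => (hyv v hv _).2) hb
    exact ⟨blk_size h.ed.hc hh0 (fun j => hA1 _ (hyv v hv _).1) h1 h2, h3⟩
  -- data of row K
  have hcne : c ≠ 0 := by
    rcases h.ed.hc with h1 | h1
    · rw [h1]
      exact one_ne_zero
    · rw [h1]
      norm_num
  obtain ⟨q0, hq0⟩ : ∃ q0 : Fin K, q0 = ⟨0, hK⟩ := ⟨_, rfl⟩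
  set φv : Fin N → Fin N → ℝ := fun i => bM.M *ᵥ (Pi.single i φ0 : Fin N → ℝ) with hφv
  set dl : (Fin 8 → α) → Fin N → ℝ := fun y => (1 / max 1 ‖bM.M *ᵥ Dl hh tp Ap y‖) • Dl hh tp Ap y with hdl
  have hmdl : ∀ y, bM.M *ᵥ dl y = tr (bM.M *ᵥ Dl hh tp Ap y) := by
    intro y
    rw [hdl]
    simp only [Matrix.mulVec_smul]
    rfl
  have hmax : ∀ y : Fin 8 → α, ‖Dl hh tp Ap y‖ ≤ 32 → max 1 ‖bM.M *ᵥ Dl hh tp Ap y‖ ≤ N / φ0 * 32 := by
    intro y hy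
    refine max_le ?_ ((hfl _).trans (mul_le_mul_of_nonneg_left hy (by positivity)))
    have h1 : 1 ≤ N / φ0 := by
      rw [le_div_iff₀ hφ0]
      linarith
    linarith
  have hdl32 : ∀ y : Fin 8 → α, ‖Dl hh tp Ap y‖ ≤ 32 → ∀ i, |dl y i| ≤ 32 := by
    intro y hy i
    have h1 : (1 : ℝ) ≤ max 1 ‖bM.M *ᵥ Dl hh tp Ap y‖ := le_max_left _ _
    have h2 := norm_le_pi_norm (Dl hh tp Ap y) i
    rw [Real.norm_eq_abs] at h2
    show |(1 / max 1 ‖bM.M *ᵥ Dl hh tp Ap y‖) * Dl hh tp Ap y i| ≤ 32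
    rw [abs_mul, abs_of_nonneg (by positivity : (0 : ℝ) ≤ 1 / max 1 ‖bM.M *ᵥ Dl hh tp Ap y‖)]
    have h3 : 1 / max 1 ‖bM.M *ᵥ Dl hh tp Ap y‖ ≤ 1 := by
      rw [div_le_one (by positivity)]
      exact h1
    calc 1 / max 1 ‖bM.M *ᵥ Dl hh tp Ap y‖ * |Dl hh tp Ap y i| ≤ 1 * 32 :=
          mul_le_mul h3 (h2.trans hy) (abs_nonneg _) zero_le_one
      _ = 32 := one_mul _
  have hthp : ∀ y : Fin 8 → α, 0 < thV' hh bM tp Ap y ∧ thV' hh bM tp Ap y ≤ hh := by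
    intro y
    have h1 : (1 : ℝ) ≤ max 1 ‖bM.M *ᵥ Dl hh tp Ap y‖ := le_max_left _ _
    unfold thV'
    exact ⟨by positivity, div_le_self hh0.le h1⟩
  have hxc : ∀ (V : Prop) (y : Fin 8 → α), ‖Dl hh tp Ap y‖ ≤ 32 → |etV c tp y 0| ≤ 13 * hh →
      xc V (thV' hh bM tp Ap y) (etV c tp y) ≤ Xm := by
    intro V y hy he
    apply xc_le
    have h1 : (1 : ℝ) ≤ max 1 ‖bM.M *ᵥ Dl hh tp Ap y‖ := le_max_left _ _
    have h2 : |etV c tp y 0| / thV' hh bM tp Ap y = |etV c tp y 0| / hh * max 1 ‖bM.M *ᵥ Dl hh tp Ap y‖ := by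
      unfold thV'
      rw [div_div_eq_mul_div]
      ring
    have h3 : |etV c tp y 0| / hh ≤ 13 := by
      rw [div_le_iff₀ hh0]
      exact he
    rw [h2]
    calc |etV c tp y 0| / hh * max 1 ‖bM.M *ᵥ Dl hh tp Ap y‖ ≤ 13 * (N / φ0 * 32) :=
          mul_le_mul h3 (hmax y hy) (by positivity) (by norm_num)
      _ = 416 * N / φ0 := by ring
      _ ≤ 2 ^ Xm := by
          rw [div_le_iff₀ hφ0]
          linarith
  set ηf : Fin K → ((Fin N → ℤ) × (Fin (8 * K) → α)) × ((({c // c ∈ (univ : Finset (Fin (k + 2 * K)))} → α) ×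
      ({c // c ∈ spc k K} → β)) × φ) → Fin (1 + 1) → ℝ := fun b γ => etV c tp (by8 γ.1.2 b) with hηf
  set sf : Fin K → ((Fin N → ℤ) × (Fin (8 * K) → α)) × ((({c // c ∈ (univ : Finset (Fin (k + 2 * K)))} → α) ×
      ({c // c ∈ spc k K} → β)) × φ) → Fin (1 + 1) → Fin N → ℝ := fun b γ => sV c Ap (by8 γ.1.2 b) with hsf
  set thf : Fin K → ((Fin N → ℤ) × (Fin (8 * K) → α)) × ((({c // c ∈ (univ : Finset (Fin (k + 2 * K)))} → α) ×
      ({c // c ∈ spc k K} → β)) × φ) → ℝ := fun b γ => thV' hh bM tp Ap (by8 γ.1.2 b) with hthf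
  set Vf : Fin K → ((Fin N → ℤ) × (Fin (8 * K) → α)) × ((({c // c ∈ (univ : Finset (Fin (k + 2 * K)))} → α) ×
      ({c // c ∈ spc k K} → β)) × φ) → Prop := fun b γ => Gd (fun j => Wf (by8 γ.1.2 b j)) with hVf
  set blf : Fin N → ((Fin N → ℤ) × (Fin (8 * K) → α)) × ((({c // c ∈ (univ : Finset (Fin (k + 2 * K)))} → α) ×
      ({c // c ∈ spc k K} → β)) × φ) → Fin K := fun i γ => blS (ThV ρw R r) φv (1 / (8 * N)) Gd q0
        (by8 (fun j => Wf (γ.1.2 j))) i with hblf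
  set Spf : ((Fin N → ℤ) × (Fin (8 * K) → α)) × ((({c // c ∈ (univ : Finset (Fin (k + 2 * K)))} → α) ×
      ({c // c ∈ spc k K} → β)) × φ) → Prop := fun γ => Seen (ThV ρw R r) φv (1 / (8 * N))
        (by8 (fun j => Wf (γ.1.2 j))) with hSpf
  have hyG : ∀ v, (G0K D en a b0 v).1.2 = yv D en a b0 v := fun _ => rfl
  -- the vectors of valid blocks
  have hwc : ∀ v, mu v ≠ 0 → ∀ b, Vf b (G0K D en a b0 v) →
      wc (Vf b (G0K D en a b0 v)) (thf b (G0K D en a b0 v)) (ηf b (G0K D en a b0 v)) (sf b (G0K D en a b0 v)) =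
        dl (by8 (yv D en a b0 v) b) := by
    intro v _ b hb
    exact wc_valid hb c hh hcne bM tp Ap (by8 (yv D en a b0 v) b)
  have hpow : hh = (1 / 2) ^ (m + R) := by
    rw [hhh, one_div_pow]
  have hp2n : (0 : ℝ) < 2 ^ D.n := by positivity
  -- hypotheses of row K
  have k1 : ∀ ω, mu ω ≠ 0 → ∀ (b : Fin K) (k : Fin (1 + 1)), 0 ≤ SR.T (Qp D en a (8 * K) b ω k) ∧
      SR.T (Qp D en a (8 * K) b ω k) < 1 := fun ω _ b k => h.ed.bT' _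
  have k2 : ∀ t < I, ∀ i, |((frm (Z t))⁻¹ *ᵥ bM.fr i0) i| ≤ C * 2 ^ (l0 + t * R + R) := by
    intro t ht i
    refine (okb_hv hφ0 (hZ t ht) (hVA i0) i).trans ?_
    exact mul_le_mul_of_nonneg_right hC4 (by positivity)
  have k3 : ∀ ω, mu ω ≠ 0 → ∀ i, N * |(D.z (en a0 b0 (bs (8 * K) ω)) -
      (fun i => (((G0K D en a b0 ω).1.1 i : ℤ) : ℝ) / 2 ^ D.n) -
      ∑ b, ∑ k, (SR.T (Qp D en a (8 * K) b ω k) • sf b (G0K D en a b0 ω) k -
        ηf b (G0K D en a b0 ω) k • SR.A (Qp D en a (8 * K) b ω k))) i| ≤ C * φ0 := by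
    intro ω hω i
    have h1 := walk_KI hr nd0 a a0 b0 tp Ap SR.T SR.A c h.om ω (hsup ω hω).1 i
    have h2 : |(D.z (en a0 b0 (bs (8 * K) ω)) -
      (fun i => (((G0K D en a b0 ω).1.1 i : ℤ) : ℝ) / 2 ^ D.n) -
      ∑ b, ∑ k, (SR.T (Qp D en a (8 * K) b ω k) • sf b (G0K D en a b0 ω) k -
        ηf b (G0K D en a b0 ω) k • SR.A (Qp D en a (8 * K) b ω k))) i| * 2 ^ D.n ≤ 24 * K + 2 := h1
    set x := |(D.z (en a0 b0 (bs (8 * K) ω)) -
      (fun i => (((G0K D en a b0 ω).1.1 i : ℤ) : ℝ) / 2 ^ D.n) -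
      ∑ b, ∑ k, (SR.T (Qp D en a (8 * K) b ω k) • sf b (G0K D en a b0 ω) k -
        ηf b (G0K D en a b0 ω) k • SR.A (Qp D en a (8 * K) b ω k))) i| with hx
    have h3 : N * x * 2 ^ D.n ≤ φ0 * 2 ^ D.n := by
      calc N * x * 2 ^ D.n = N * (x * 2 ^ D.n) := by ring
        _ ≤ N * (24 * K + 2) := mul_le_mul_of_nonneg_left h2 (by positivity)
        _ ≤ φ0 * 2 ^ D.n := hn1
    have h4 : N * x ≤ φ0 := le_of_mul_le_mul_right h3 hp2n
    have h5 : φ0 ≤ C * φ0 := le_mul_of_one_le_left hφ0.le (by linarith)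
    linarith
  have k4 : ∀ ω, mu ω ≠ 0 → ∀ b, Vf b (G0K D en a b0 ω) →
      (∀ k, hh ≤ 13 * |ηf b (G0K D en a b0 ω) k| ∧ |ηf b (G0K D en a b0 ω) k| ≤ 13 * hh) ∧
      0 < thf b (G0K D en a b0 ω) ∧ thf b (G0K D en a b0 ω) ≤ hh ∧
      l0 + I * R + xc (Vf b (G0K D en a b0 ω)) (thf b (G0K D en a b0 ω)) (ηf b (G0K D en a b0 ω)) ≤ D.n := by
    intro ω hω b hb
    obtain ⟨⟨h1, h2, -⟩, -⟩ := hblk ω hω b hb
    refine ⟨h1, (hthp _).1, (hthp _).2, ?_⟩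
    have h3 := hxc (Vf b (G0K D en a b0 ω)) (by8 (yv D en a b0 ω) b) h2 (h1 0).2
    have h4 : xc (Vf b (G0K D en a b0 ω)) (thf b (G0K D en a b0 ω)) (ηf b (G0K D en a b0 ω)) ≤ Xm := h3
    omega
  have k5 : ∀ ω, mu ω ≠ 0 → ∀ b, Vf b (G0K D en a b0 ω) → ∀ i,
      |wc (Vf b (G0K D en a b0 ω)) (thf b (G0K D en a b0 ω)) (ηf b (G0K D en a b0 ω)) (sf b (G0K D en a b0 ω)) i| ≤
        B := by
    intro ω hω b hb i
    rw [hwc ω hω b hb]
    exact (hdl32 _ (hblk ω hω b hb).1.2.1 i).trans hB32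
  have k6 : ∀ t < I, ∀ ω, mu ω ≠ 0 → ∀ b, Vf b (G0K D en a b0 ω) → ∀ i,
      |((frm (Z t))⁻¹ *ᵥ wc (Vf b (G0K D en a b0 ω)) (thf b (G0K D en a b0 ω)) (ηf b (G0K D en a b0 ω))
        (sf b (G0K D en a b0 ω))) i| ≤ C * 2 ^ (l0 + t * R + R) := by
    intro t ht ω hω b hb i
    rw [hwc ω hω b hb]
    have h1 : ‖bM.M *ᵥ dl (by8 (yv D en a b0 ω) b)‖ ≤ 1 := by
      rw [hmdl]
      exact tr_norm _
    refine (okb_hw hφ0 (hZ t ht) hdet hVA h1 i).trans ?_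
    refine mul_le_mul_of_nonneg_right ?_ (by positivity)
    nlinarith [sq_nonneg (N : ℝ)]
  have h4N : N * (4 / φ0) ≤ C * 2 ^ D.n := by
    have hKr : (1 : ℝ) ≤ K := by exact_mod_cast hK
    have h1 : N * 4 ≤ φ0 * 2 ^ D.n := by
      refine le_trans ?_ hn1
      exact mul_le_mul_of_nonneg_left (by linarith) (by linarith)
    have h2 : N * (4 / φ0) ≤ 2 ^ D.n := by
      rw [← mul_div_assoc, div_le_iff₀ hφ0]
      linarith
    exact h2.trans (le_mul_of_one_le_left hp2n.le (by linarith))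
  have k7 : ∀ t < I, ∀ ω, mu ω ≠ 0 → ∀ b, Vf b (G0K D en a b0 ω) → ∀ i,
      |((frm (Z t))⁻¹ *ᵥ sf b (G0K D en a b0 ω) 1) i| ≤ C * 2 ^ D.n := by
    intro t ht ω hω b hb i
    exact (size_frm hφ0 (hZ t ht).fl (by norm_num) ((hblk ω hω b hb).1.2.2 1) i).trans h4N
  have k8 : ∀ J ω ω', mu ω ≠ 0 → mu ω' ≠ 0 → G0K D en a b0 ω = G0K D en a b0 ω' → ∀ (b : Fin K) (k : Fin (1 + 1)),
      recs SR.E SR.F SR.T SR.P SR.o L (Qp D en a (8 * K) b ω k) =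
        recs SR.E SR.F SR.T SR.P SR.o L (Qp D en a (8 * K) b ω' k) →
      fl J (SR.T (Qp D en a (8 * K) b ω k)) = fl J (SR.T (Qp D en a (8 * K) b ω' k)) →
      (fun J q => if J < M then (SR.bL J q).a else 0) J (Qp D en a (8 * K) b ω k) =
        (fun J q => if J < M then (SR.bL J q).a else 0) J (Qp D en a (8 * K) b ω' k) ∧
      (fun J q => if J < M then (SR.bL J q).o else 0) J (Qp D en a (8 * K) b ω k) =
        (fun J q => if J < M then (SR.bL J q).o else 0) J (Qp D en a (8 * K) b ω' k) := by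
    intro J ω ω' hω hω' hG0 b k hr1 ht1
    by_cases hJ : J < M
    · have hJP : J / SR.P ≤ L := Nat.div_le_of_le_mul (by
        rw [mul_comm]
        omega)
      have hF : SR.F (Qp D en a (8 * K) b ω k) = SR.F (Qp D en a (8 * K) b ω' k) := by
        show SR.F (D.Q (en a (car b k) (bs (8 * K) ω))) = SR.F (D.Q (en a (car b k) (bs (8 * K) ω')))
        rw [hFQ, hFQ, hr.sF _ (hsup ω hω).2.2 a (car b k) a b0, hr.sF _ (hsup ω' hω').2.2 a (car b k) a b0]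
        exact congrArg (fun γ => γ.2.2) hG0
      have hb : SR.bL J (Qp D en a (8 * K) b ω k) = SR.bL J (Qp D en a (8 * K) b ω' k) :=
        bL_congr SR hJP hF hr1 ht1
      simp only [if_pos hJ, hb, and_self]
    · simp only [if_neg hJ, and_self]
  have k9 : ∀ t < I, ∀ ω, mu ω ≠ 0 → ∀ b, Vf b (G0K D en a b0 ω) → ∀ J, l0 + t * R ≤ J →
      ¬ (fun (J : ℕ) (q q' : β) => J ∉ G ∨ BdQ SR S' C₀ 270000 φ0 D en a0 w J q q') J (Qp D en a (8 * K) b ω 0)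
        (Qp D en a (8 * K) b ω 1) →
      (∀ i, |ηf b (G0K D en a b0 ω) 1| * |((frm (Z t))⁻¹ *ᵥ (fun J q => if J < M then (SR.bL J q).a else 0) J
        (Qp D en a (8 * K) b ω 0)) i| ≤ C * 2 ^ D.n) ∧
      (∀ i, |ηf b (G0K D en a b0 ω) 1| * |((frm (Z t))⁻¹ *ᵥ ((fun J q => if J < M then (SR.bL J q).a else 0) J
        (Qp D en a (8 * K) b ω 1) - (fun J q => if J < M then (SR.bL J q).a else 0) J
        (Qp D en a (8 * K) b ω 0))) i| ≤ C * 2 ^ J) ∧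
      ∀ k i, |ηf b (G0K D en a b0 ω) k| * |((frm (Z t))⁻¹ *ᵥ (SR.A (Qp D en a (8 * K) b ω k) -
        SR.T (Qp D en a (8 * K) b ω k) • (fun J q => if J < M then (SR.bL J q).a else 0) J (Qp D en a (8 * K) b ω k) -
        (fun J q => if J < M then (SR.bL J q).o else 0) J (Qp D en a (8 * K) b ω k))) i| ≤ C := by
    intro t ht ω hω b hb J hJ hnb
    have hJM : J < M := by
      by_contra hcon
      apply hnb
      left
      intro hJG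
      exact hcon (mem_range.mp (hG hJG))
    have hη := (hblk ω hω b hb).1.1
    have h1 := adq_hgoodG (φ := φ0) (B := B) hφ0 (S := SR) (S' := S') (C₀ := C₀) (r := 270000) (s := spc k K)
      (x := fun b => D.Q (en a0 b w)) (G := G) (hZ t ht) (by norm_num) (J := J)
      (q := fun e : Fin 2 => Qp D en a (8 * K) b ω e) hnb (fun k => hFr J _) hJ (A := 13) (K := Kas N * 2 ^ M) (C := C)
      (n := D.n) (by norm_num) ((hslo J _).trans (mul_le_mul_of_nonneg_left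
        (pow_le_pow_right₀ (by norm_num) hJM.le) kas_nonneg)) (by
        have h2 : N * (Kas N * 2 ^ M / φ0) ≤ 2 ^ D.n := by
          rw [← mul_div_assoc, div_le_iff₀ hφ0]
          linarith
        calc 13 * (N * (Kas N * 2 ^ M / φ0)) ≤ 13 * 2 ^ D.n := mul_le_mul_of_nonneg_left h2 (by norm_num)
          _ ≤ C * 2 ^ D.n := mul_le_mul_of_nonneg_right (by linarith) hp2n.le) hC3
      (η := fun e : Fin 2 => ηf b (G0K D en a b0 ω) e) (fun e => by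
        have h2 := (hη e).2
        rw [hpow] at h2
        exact h2)
    simp only [if_pos hJM]
    exact h1
  have k10 : ∀ i, CH mu (fun ω => fun k => recs SR.E SR.F SR.T SR.P SR.o L (Qp D en a (8 * K)
      (blf i (G0K D en a b0 ω)) ω k)) (fun ω => (G0K D en a b0 ω, off (blf i (G0K D en a b0 ω))
        (fun b v => Qp D en a (8 * K) b v) ω)) ≤ 2 * (L * Real.logb 2 (Fintype.card R')) := fun i =>
    rec_two mu hmun hmu1 SR.E SR.F SR.T SR.P SR.o L (fun ω => Qp D en a (8 * K) (blf i (G0K D en a b0 ω)) ω) _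
  have hTne : ∀ x : Fin 8 → Fin (2 ^ ρw) × Rc N r, ThV ρw R r x ≠ 0 → Gd x := fun x hx => gdw_of_ne hx
  have k11 : ∀ ω, mu ω ≠ 0 → Spf (G0K D en a b0 ω) → Spd φ0 C (fun k => wc (Vf (blf k (G0K D en a b0 ω))
      (G0K D en a b0 ω)) (thf (blf k (G0K D en a b0 ω)) (G0K D en a b0 ω)) (ηf (blf k (G0K D en a b0 ω))
      (G0K D en a b0 ω)) (sf (blf k (G0K D en a b0 ω)) (G0K D en a b0 ω))) (bM.fr i0) := by
    intro ω hω hsp
    have hc8 : (0 : ℝ) < 1 / (8 * N) := by positivity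
    refine spd_of_seen hN bM hdet hφ0 hflo (ThV ρw R r) (fun v => thV_norm ρw R r v)
      (by8 (fun j => Wf (yv D en a b0 ω j))) hsp (fun b => dl (by8 (yv D en a b0 ω) b)) (fun b hb => ?_) hC2 _
      (fun i b hib => ?_) i0
    · rw [hmdl]
      exact (hblk ω hω b (hTne _ hb)).2
    · have h1 : ThV ρw R r (by8 (fun j => Wf (yv D en a b0 ω j)) b) ≠ 0 :=
        sel_ne hc8 (fun v => thV_norm ρw R r v) hflo hsp hib
      have h2 : blf i (G0K D en a b0 ω) = b := blS_sel hib (hTne _ h1)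
      rw [h2]
      exact hwc ω hω b (hTne _ h1)
  have k12 : ∀ i, ∑ t ∈ range I, mass (res mu (fun ω => ¬ (Vf (blf i (G0K D en a b0 ω)) (G0K D en a b0 ω) ∧
      ¬ (fun (J : ℕ) (q q' : β) => J ∉ G ∨ BdQ SR S' C₀ 270000 φ0 D en a0 w J q q')
        (l0 + t * R + xc (Vf (blf i (G0K D en a b0 ω)) (G0K D en a b0 ω)) (thf (blf i (G0K D en a b0 ω))
          (G0K D en a b0 ω)) (ηf (blf i (G0K D en a b0 ω)) (G0K D en a b0 ω)))
        (Qp D en a (8 * K) (blf i (G0K D en a b0 ω)) ω 0) (Qp D en a (8 * K) (blf i (G0K D en a b0 ω)) ω 1)))) ≤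
      I * Pw mu (fun v => ∀ b, ¬ Gd (by8 (fun i => Wf (yv D en a b0 v i)) b)) + bad := by
    intro i
    have h1 := hbad (fun W => blS (ThV ρw R r) φv (1 / (8 * N)) Gd q0 (by8 W) i)
      (fun v => Vf (blf i (G0K D en a b0 v)) (G0K D en a b0 v))
      (fun v => xc (Vf (blf i (G0K D en a b0 v)) (G0K D en a b0 v)) (thf (blf i (G0K D en a b0 v))
          (G0K D en a b0 v)) (ηf (blf i (G0K D en a b0 v)) (G0K D en a b0 v))) (fun v hv hV => by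
        obtain ⟨⟨h1, h2, -⟩, -⟩ := hblk v hv (blf i (G0K D en a b0 v)) hV
        have h3 := hxc (Vf (blf i (G0K D en a b0 v)) (G0K D en a b0 v)) (by8 (yv D en a b0 v) (blf i (G0K D en a b0 v)))
          h2 (h1 0).2
        exact (Nat.add_le_add_left h3 _).trans hM)
    refine h1.trans (add_le_add (mul_le_mul_of_nonneg_left (Pw_mono mu hmun ?_) (Nat.cast_nonneg I)) le_rfl)
    intro v _ hv b hb
    exact hv (blS_good i ⟨b, hb⟩)
  have key := rowK (K := K) (ι := Fin N) (cw l (Fp D en a0 b0) w) mu (bs (8 * K)) hmun hmu1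
    (push_cb hbs (Fp D en a0 b0) w) (fun w => D.z (en a0 b0 w)) (fun _ => ()) (G0K D en a b0) (fun _ _ _ _ _ => rfl)
    (fun b v => Qp D en a (8 * K) b v) SR.T SR.A (recs SR.E SR.F SR.T SR.P SR.o L) ηf sf
    (fun γ i => ((γ.1.1 i : ℤ) : ℝ) / 2 ^ D.n) Vf thf blf Spf Z (bM.fr i0) φ0 B g R0 R l0 I D.n
    (fun J q => if J < M then (SR.bL J q).a else 0) (fun J q => if J < M then (SR.bL J q).o else 0)
    (fun (J : ℕ) (q q' : β) => J ∉ G ∨ BdQ SR S' C₀ 270000 φ0 D en a0 w J q q') C d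
    (2 * (L * Real.logb 2 (Fintype.card R'))) hh 13
    (I * Pw mu (fun v => ∀ b, ¬ Gd (by8 (fun i => Wf (yv D en a b0 v i)) b)) + bad) hφ0 hB (by norm_num) (by linarith)
    (by linarith) hg hRR hd0 hh0 k1 (fun t ht => (hZ t ht).fl) (fun t ht => okb_bdd (hZ t ht)) k2 k3 k4 (by omega) k5 k6
    k7 k8 k9 hcount k10 k11 k12
  rw [Fintype.card_fin] at key
  rw [Pw_mass] at key
  exact key

end Pool.Agent.Helper6.FW
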