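import Pool.Agent.Helper6.FW.Slot
import Pool.Agent.Helper15.VG.Adm
import Pool.Agent.Helper92.FW.Spn

/-!
# The increments of one source vector: from the selected blocks to the vector (FW, row [K])
-/

set_option autoImplicit false

namespace Pool.Agent.Helper6.FW

open Finset Matrix Pool.Agent.Helper69.RK Pool.Agent.Helper15.VW Pool.Agent.Helper26.VW Pool.Agent.Helper15.VG
open Pool.Agent.Helper78.FW
open Pool.Agent.Helper61.GL hiding fl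
open Pool.Agent.Helper92.W (fl)

variable {Ω Ω' γ κ ρ δ : Type} [Fintype Ω] [Fintype Ω'] {N : ℕ}

/-- `v` is a combination with coefficients `≤ C` of the vectors `w k` up to `C φ` -/
def Spd {ι : Type} [Fintype ι] (φ C : ℝ) (w : ι → Fin N → ℝ) (v : Fin N → ℝ) : Prop :=
  ∃ (c : ι → ℝ) (x0 : Fin N → ℝ), v = ∑ k, c k • w k + x0 ∧ (∀ k, |c k| ≤ C) ∧ ∀ i, |x0 i| ≤ C * φ

/-- the span in the frame of the family -/
theorem Spd.frm {ι : Type} [Fintype ι] {φ C : ℝ} {w : ι → Fin N → ℝ} {v : Fin N → ℝ} (h : Spd φ C w v)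
    (hφ : 0 < φ) (hC : 0 ≤ C) (Z : Multiset (Fin N → ℝ)) (hZ : fam (flr (N := N) φ) ≤ Z) (l : ℕ) (i : Fin N) :
    |((frm (Z + fm (fun k => ((1 : ℝ) / 2) ^ l • w k)))⁻¹ *ᵥ (((1 : ℝ) / 2) ^ l • v)) i| ≤
      (Fintype.card ι + N) * C := by
  obtain ⟨c, x0, rfl, hc, hx⟩ := h
  set Z' := Z + fm (fun k => ((1 : ℝ) / 2) ^ l • w k) with hZ'
  have hZ0 : fam (flr (N := N) φ) ≤ Z' := hZ.trans (Multiset.le_add_right _ _)
  have hp : ((1 : ℝ) / 2) ^ l ≤ 1 := pow_le_one₀ (by norm_num) (by norm_num)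
  have hp0 : (0 : ℝ) ≤ (1 / 2) ^ l := by positivity
  have e1 : ((1 : ℝ) / 2) ^ l • (∑ k, c k • w k + x0) =
      ∑ k, c k • (((1 : ℝ) / 2) ^ l • w k) + ((1 : ℝ) / 2) ^ l • x0 := by
    rw [smul_add, Finset.smul_sum]
    congr 1
    apply Finset.sum_congr rfl
    intro k _
    rw [smul_comm]
  have b1 : |((Pool.Agent.Helper15.VW.frm Z')⁻¹ *ᵥ (∑ k, c k • (((1 : ℝ) / 2) ^ l • w k))) i| ≤
      Fintype.card ι * C := by
    rw [Matrix.mulVec_sum, Finset.sum_apply]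
    refine (Finset.abs_sum_le_sum_abs _ _).trans ?_
    have : ∑ k : ι, |((Pool.Agent.Helper15.VW.frm Z')⁻¹ *ᵥ (c k • (((1 : ℝ) / 2) ^ l • w k))) i| ≤ ∑ _k : ι, C := by
      apply Finset.sum_le_sum
      intro k _
      rw [Matrix.mulVec_smul, Pi.smul_apply, smul_eq_mul, abs_mul]
      have h1 := frm_mem hφ hZ0 (v := ((1 : ℝ) / 2) ^ l • w k)
        (Multiset.mem_add.mpr (Or.inr ((mem_fm _ _).mpr ⟨k, rfl⟩))) i
      calc _ ≤ C * 1 := mul_le_mul (hc k) h1 (abs_nonneg _) hC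
        _ = C := mul_one C
    rw [Finset.sum_const, Finset.card_univ, nsmul_eq_mul] at this
    exact this
  have b2 := frm_floor hφ hZ0 hC (x := ((1 : ℝ) / 2) ^ l • x0) (by
    intro j
    rw [Pi.smul_apply, smul_eq_mul, abs_mul, abs_of_nonneg hp0]
    have h1 := hx j
    have h2 := abs_nonneg (x0 j)
    nlinarith) i
  rw [e1, Matrix.mulVec_add, Pi.add_apply]
  refine (abs_add_le _ _).trans ?_
  have : ((Fintype.card ι : ℝ) + N) * C = Fintype.card ι * C + N * C := by ring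
  rw [this]
  exact add_le_add b1 b2

theorem cT_nonneg (r : ℕ) {C : ℝ} (hC : 0 ≤ C) : 0 ≤ cT r C := by
  have h1 := cF_nonneg r (C := 1) zero_le_one
  have h2 : 0 ≤ Real.logb 2 (C + 4) := Real.logb_nonneg (by norm_num) (by linarith)
  unfold cT
  positivity

theorem cF3_nonneg (r u : ℕ) {C : ℝ} (hC : 0 ≤ C) : 0 ≤ cF3 r u C := by
  have h0 : 0 ≤ C * (4 * u + 2) := by positivity
  have h1 := cT_nonneg r h0
  have h2 : 0 ≤ Real.logb 2 (2 * (C * (4 * u + 2)) + 2) := Real.logb_nonneg (by norm_num) (by linarith)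
  unfold cF3
  linarith

/-- **ROW [K], one law**: the increments of the source vector `v` along a progression of partner levels -/
theorem rowK {K : ℕ} {ι : Type} [Fintype ι] (μ : Ω → ℝ) (μ' : Ω' → ℝ) (π : Ω' → Ω) (hμ : ∀ ω, 0 ≤ μ' ω)
    (hm : mass μ' = 1) (hπ : push π μ' = μ) (z : Ω → Fin N → ℝ) (Y : Ω → δ) (G0 : Ω' → γ)
    (hGY : ∀ ω ω', μ' ω ≠ 0 → μ' ω' ≠ 0 → G0 ω = G0 ω' → Y (π ω) = Y (π ω'))
    (Q : Fin K → Ω' → Fin (1 + 1) → κ) (T : κ → ℝ) (Cc : κ → Fin N → ℝ) (rc : κ → ρ)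
    (η : Fin K → γ → Fin (1 + 1) → ℝ) (s : Fin K → γ → Fin (1 + 1) → Fin N → ℝ) (ze : γ → Fin N → ℝ)
    (Val : Fin K → γ → Prop) (th : Fin K → γ → ℝ) (bl : ι → γ → Fin K) (Sp : γ → Prop)
    (Z : ℕ → Multiset (Fin N → ℝ)) (v : Fin N → ℝ) (φ B : ℝ)
    (g R0 D l0 L n : ℕ) (bb oo : ℕ → κ → Fin N → ℝ) (Bd : ℕ → κ → κ → Prop) (C d e h A bad : ℝ)
    (hφ : 0 < φ) (hB : B ≤ φ * 2 ^ R0) (hA : 1 ≤ A) (hC2 : 2 ≤ C) (hCA : A * A ≤ C)
    (hg : R0 ≤ g) (hD : D ≤ R0) (hd0 : 0 ≤ d) (hh : 0 < h)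
    (hT : ∀ ω, μ' ω ≠ 0 → ∀ b k, 0 ≤ T (Q b ω k) ∧ T (Q b ω k) < 1)
    (hZ : ∀ t < L, fam (flr (N := N) φ) ≤ Z t) (hZB : ∀ t < L, ∀ x ∈ Z t, ∀ i, |x i| ≤ B)
    (hv : ∀ t < L, ∀ i, |((frm (Z t))⁻¹ *ᵥ v) i| ≤ C * 2 ^ (l0 + t * D + D))
    (hwalk : ∀ ω, μ' ω ≠ 0 → ∀ i, N * |(z (π ω) - ze (G0 ω) -
      ∑ b, ∑ k, (T (Q b ω k) • s b (G0 ω) k - η b (G0 ω) k • Cc (Q b ω k))) i| ≤ C * φ)
    (hval : ∀ ω, μ' ω ≠ 0 → ∀ b, Val b (G0 ω) →
      (∀ k, h ≤ A * |η b (G0 ω) k| ∧ |η b (G0 ω) k| ≤ A * h) ∧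
      0 < th b (G0 ω) ∧ th b (G0 ω) ≤ h ∧
      l0 + L * D + xc (Val b (G0 ω)) (th b (G0 ω)) (η b (G0 ω)) ≤ n)
    (hln : l0 + L * D ≤ n)
    (hwB : ∀ ω, μ' ω ≠ 0 → ∀ b, Val b (G0 ω) → ∀ i,
      |wc (Val b (G0 ω)) (th b (G0 ω)) (η b (G0 ω)) (s b (G0 ω)) i| ≤ B)
    (hw : ∀ t < L, ∀ ω, μ' ω ≠ 0 → ∀ b, Val b (G0 ω) → ∀ i,
      |((frm (Z t))⁻¹ *ᵥ wc (Val b (G0 ω)) (th b (G0 ω)) (η b (G0 ω)) (s b (G0 ω))) i| ≤
        C * 2 ^ (l0 + t * D + D))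
    (hs : ∀ t < L, ∀ ω, μ' ω ≠ 0 → ∀ b, Val b (G0 ω) → ∀ i, |((frm (Z t))⁻¹ *ᵥ s b (G0 ω) 1) i| ≤ C * 2 ^ n)
    (hline : ∀ J ω ω', μ' ω ≠ 0 → μ' ω' ≠ 0 → G0 ω = G0 ω' → ∀ b k, rc (Q b ω k) = rc (Q b ω' k) →
      fl J (T (Q b ω k)) = fl J (T (Q b ω' k)) →
      bb J (Q b ω k) = bb J (Q b ω' k) ∧ oo J (Q b ω k) = oo J (Q b ω' k))
    (hgood : ∀ t < L, ∀ ω, μ' ω ≠ 0 → ∀ b, Val b (G0 ω) → ∀ J, l0 + t * D ≤ J →
      ¬ Bd J (Q b ω 0) (Q b ω 1) →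
      (∀ i, |η b (G0 ω) 1| * |((frm (Z t))⁻¹ *ᵥ bb J (Q b ω 0)) i| ≤ C * 2 ^ n) ∧
      (∀ i, |η b (G0 ω) 1| * |((frm (Z t))⁻¹ *ᵥ (bb J (Q b ω 1) - bb J (Q b ω 0))) i| ≤ C * 2 ^ J) ∧
      ∀ k i, |η b (G0 ω) k| * |((frm (Z t))⁻¹ *ᵥ (Cc (Q b ω k) - T (Q b ω k) • bb J (Q b ω k) -
        oo J (Q b ω k))) i| ≤ C)
    (hcount : ∀ b, 2 * (n : ℝ) - d ≤ CH μ' (fun ω => fun k => fl n (T (Q b ω k)))
      (fun ω => (G0 ω, off b Q ω)))
    (hrec : ∀ i, CH μ' (fun ω => fun k => rc (Q (bl i (G0 ω)) ω k)) (fun ω => (G0 ω, off (bl i (G0 ω)) Q ω)) ≤ e)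
    (hspan : ∀ ω, μ' ω ≠ 0 → Sp (G0 ω) → Spd φ C (fun k => wc (Val (bl k (G0 ω)) (G0 ω)) (th (bl k (G0 ω)) (G0 ω))
      (η (bl k (G0 ω)) (G0 ω)) (s (bl k (G0 ω)) (G0 ω))) v)
    (hbad : ∀ i, ∑ t ∈ range L, mass (res μ' (fun ω => ¬ (Val (bl i (G0 ω)) (G0 ω) ∧
          ¬ Bd (l0 + t * D + xc (Val (bl i (G0 ω)) (G0 ω)) (th (bl i (G0 ω)) (G0 ω)) (η (bl i (G0 ω)) (G0 ω)))
            (Q (bl i (G0 ω)) ω 0) (Q (bl i (G0 ω)) ω 1)))) ≤ bad) :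
    ∑ t ∈ range L, IZ μ z Y g R0 (Z t) (((1 : ℝ) / 2) ^ (l0 + t * D) • v) ≤
      (Fintype.card ι * cF2 N 1 C + cP N + cN N ((Fintype.card ι + N + 1) * C)) * L +
      (Fintype.card ι * (K * d + e + cF1 1 C + (D + cF3 N 1 C) * bad) +
        (D + cT N ((Fintype.card ι + N + 1) * C)) * (L * mass (res μ' (fun ω => ¬ Sp (G0 ω))))) := by
  classical
  have hC0 : 0 ≤ C := by linarith
  have hι : (0 : ℝ) ≤ Fintype.card ι := Nat.cast_nonneg _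
  have hN : (0 : ℝ) ≤ N := Nat.cast_nonneg _
  obtain ⟨C', hC'⟩ : ∃ C' : ℝ, C' = (Fintype.card ι + N + 1) * C := ⟨_, rfl⟩
  have hCC : C ≤ C' := by
    rw [hC']
    nlinarith [mul_nonneg hι hC0, mul_nonneg hN hC0]
  have hCC2 : (Fintype.card ι + N) * C ≤ C' := by
    rw [hC']
    nlinarith
  rw [← hC']
  -- the vectors of the slots
  set W : ι → Ω' → Fin N → ℝ := fun i ω => wc (Val (bl i (G0 ω)) (G0 ω)) (th (bl i (G0 ω)) (G0 ω))
    (η (bl i (G0 ω)) (G0 ω)) (s (bl i (G0 ω)) (G0 ω)) with hW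
  have hB0 : 0 ≤ B ∨ L = 0 ∨ N = 0 := by
    rcases Nat.eq_zero_or_pos L with h0 | h0
    · exact Or.inr (Or.inl h0)
    · rcases Nat.eq_zero_or_pos N with h1 | h1
      · exact Or.inr (Or.inr h1)
      · left
        have h2 := hZB 0 h0 (flr φ ⟨0, h1⟩) (Multiset.mem_of_le (hZ 0 h0) (mem_fam _ _)) ⟨0, h1⟩
        exact (abs_nonneg _).trans h2
  have hWB : ∀ t < L, ∀ ω, μ' ω ≠ 0 → ∀ i j, |(((1 : ℝ) / 2) ^ (l0 + t * D) • W i ω) j| ≤ B := by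
    intro t ht ω x i j
    have hB1 : 0 ≤ B := by
      rcases hB0 with h0 | h0 | h0
      · exact h0
      · omega
      · subst h0
        exact j.elim0
    have hp : ((1 : ℝ) / 2) ^ (l0 + t * D) ≤ 1 := pow_le_one₀ (by norm_num) (by norm_num)
    rw [Pi.smul_apply, smul_eq_mul, abs_mul, abs_of_nonneg (by positivity)]
    have h1 : |W i ω j| ≤ B := by
      by_cases hvl : Val (bl i (G0 ω)) (G0 ω)
      · exact hwB ω x _ hvl j
      · have : W i ω = 0 := by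
          simp only [hW]
          unfold wc
          rw [if_neg hvl]
        rw [this, Pi.zero_apply, abs_zero]
        exact hB1
    calc ((1 : ℝ) / 2) ^ (l0 + t * D) * |W i ω j| ≤ 1 * B := mul_le_mul hp h1 (abs_nonneg _) zero_le_one
      _ = B := one_mul B
  -- one level
  have lev : ∀ t ∈ range L, IZ μ z Y g R0 (Z t) (((1 : ℝ) / 2) ^ (l0 + t * D) • v) ≤
      ∑ i, NsV μ' (fun ω => z (π ω)) G0 (fun _ => frm (Z t)) g R0
        (fun ω => ((1 : ℝ) / 2) ^ (l0 + t * D) • W i ω) + (cP N + cN N C') +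
      (D + cT N C') * mass (res μ' (fun ω => ¬ Sp (G0 ω))) := by
    intro t ht
    rw [Finset.mem_range] at ht
    have a1 := IV_down μ μ' π hμ hπ z Y G0 g R0 (fun _ => Z t) (fun _ => ((1 : ℝ) / 2) ^ (l0 + t * D) • v) hGY
      (fun _ _ _ _ _ => rfl) (fun _ _ _ _ _ => rfl)
    have a2 : IV μ z Y g R0 (fun _ => Z t) (fun _ => ((1 : ℝ) / 2) ^ (l0 + t * D) • v) =
        IZ μ z Y g R0 (Z t) (((1 : ℝ) / 2) ^ (l0 + t * D) • v) := NsV_const μ z Y (frm (Z t)) g R0 _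
    have a3 := IV_exch μ' hμ (fun ω => z (π ω)) G0 (fun _ => Z t)
      (fun i ω => ((1 : ℝ) / 2) ^ (l0 + t * D) • W i ω) (fun _ => ((1 : ℝ) / 2) ^ (l0 + t * D) • v)
      (fun _ => φ) B C' g R0 D (fun ω => Sp (G0 ω)) hg hD (by linarith)
      (fun _ _ _ _ _ => rfl)
      (fun ω ω' _ _ e0 k => by
        simp only [hW]
        rw [e0])
      (fun _ _ _ _ _ => rfl) (fun _ _ => hφ) (fun _ _ => hB) (fun _ _ => hZ t ht) (fun _ _ => hZB t ht)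
      (fun ω x k i => hWB t ht ω x k i)
      (fun ω x hsp i => ((hspan ω x hsp).frm hφ hC0 (Z t) (hZ t ht) (l0 + t * D) i).trans hCC2)
      (fun ω x i => by
        have h1 := hv t ht i
        have hp : ((1 : ℝ) / 2) ^ (l0 + t * D) * 2 ^ (l0 + t * D) = 1 := by rw [← mul_pow]; norm_num
        rw [Matrix.mulVec_smul, Pi.smul_apply, smul_eq_mul, abs_mul, abs_of_pos (by positivity)]
        calc ((1 : ℝ) / 2) ^ (l0 + t * D) * |((frm (Z t))⁻¹ *ᵥ v) i|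
            ≤ (1 / 2) ^ (l0 + t * D) * (C * 2 ^ (l0 + t * D + D)) :=
              mul_le_mul_of_nonneg_left h1 (by positivity)
          _ = ((1 / 2) ^ (l0 + t * D) * 2 ^ (l0 + t * D)) * (C * 2 ^ D) := by rw [pow_add]; ring
          _ = C * 2 ^ D := by rw [hp, one_mul]
          _ ≤ C' * 2 ^ D := mul_le_mul_of_nonneg_right hCC (by positivity))
    rw [hm, mul_one] at a3
    rw [← a2]
    refine a1.trans (a3.trans (le_of_eq ?_))
    rfl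
  -- the slots
  have slots : ∀ i, ∑ t ∈ range L, NsV μ' (fun ω => z (π ω)) G0 (fun _ => frm (Z t)) g R0
      (fun ω => ((1 : ℝ) / 2) ^ (l0 + t * D) • W i ω) ≤
      (K * d + e + cF1 1 C) + L * cF2 N 1 C + (D + cF3 N 1 C) * bad := by
    intro i
    have h1 := slot μ' hμ hm (fun ω => z (π ω)) G0 Q T Cc rc η s ze Val th (bl i) (fun t _ => frm (Z t)) g R0 D l0 L n
      bb oo Bd C d e h A hA hC2 hCA hg hD hd0 hh hT (fun t ht _ _ => frm_det hφ (hZ t ht))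
      (fun t ht ω x j => by
        have h2 := hwalk ω x
        have h3 : ∀ j, |(z (π ω) - ze (G0 ω) -
            ∑ b, ∑ k, (T (Q b ω k) • s b (G0 ω) k - η b (G0 ω) k • Cc (Q b ω k))) j| ≤ C / N * φ := by
          intro j
          have hN1 : (0 : ℝ) < N := by
            have : 0 < N := Fin.pos j
            exact_mod_cast this
          have := h2 j
          rw [div_mul_eq_mul_div, le_div_iff₀ hN1]
          linarith
        have h4 := frm_floor hφ (hZ t ht) (K := C / N) (by positivity) h3 j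
        have hN1 : (0 : ℝ) < N := by
          have : 0 < N := Fin.pos j
          exact_mod_cast this
        have h5 : N * (C / N) = C := by field_simp
        rw [h5] at h4
        exact h4)
      (fun ω x hvl => hval ω x _ hvl) hln (fun t ht ω x hvl => hw t ht ω x _ hvl)
      (fun t ht ω x hvl => hs t ht ω x _ hvl) hline
      (fun t ht ω x hvl J hJ hb => hgood t ht ω x _ hvl J (by omega) hb) hcount (hrec i)
    have hcf : 0 ≤ (D : ℝ) + cF3 N 1 C := add_nonneg (Nat.cast_nonneg _) (cF3_nonneg N 1 hC0)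
    have h2 := mul_le_mul_of_nonneg_left (hbad i) hcf
    exact h1.trans (add_le_add le_rfl h2)
  have hL : ∑ t ∈ range L, IZ μ z Y g R0 (Z t) (((1 : ℝ) / 2) ^ (l0 + t * D) • v) ≤
      ∑ t ∈ range L, (∑ i, NsV μ' (fun ω => z (π ω)) G0 (fun _ => frm (Z t)) g R0
        (fun ω => ((1 : ℝ) / 2) ^ (l0 + t * D) • W i ω) + (cP N + cN N C') +
      (D + cT N C') * mass (res μ' (fun ω => ¬ Sp (G0 ω)))) := Finset.sum_le_sum lev
  refine hL.trans ?_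
  rw [Finset.sum_add_distrib, Finset.sum_add_distrib, Finset.sum_comm, Finset.sum_const, Finset.sum_const,
    Finset.card_range, nsmul_eq_mul, nsmul_eq_mul]
  have h3 : ∑ i, ∑ t ∈ range L, NsV μ' (fun ω => z (π ω)) G0 (fun _ => frm (Z t)) g R0
      (fun ω => ((1 : ℝ) / 2) ^ (l0 + t * D) • W i ω) ≤
      ∑ _i : ι, ((K * d + e + cF1 1 C) + L * cF2 N 1 C + (D + cF3 N 1 C) * bad) :=
    Finset.sum_le_sum fun i _ => slots i
  rw [Finset.sum_const, Finset.card_univ, nsmul_eq_mul] at h3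
  refine (add_le_add (add_le_add h3 le_rfl) le_rfl).trans (le_of_eq ?_)
  ring

end Pool.Agent.Helper6.FW
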